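import Pool.Agent.X284.PZ.Wedge

/-!
A function `Z` of moderate size near a wedge of opening larger than `π` for which `Z M - 1` is small
on an arc in the wedge does not vanish at the apex.
-/

set_option autoImplicit false

open Complex Metric Set Filter Topology

namespace Pool.Agent.X284.PZ

/-- the numerical parameters -/
lemma params {c c2 c7 p : ℝ} (hc : 0 < c) (hc2 : 0 < c2) (hc7 : 0 < c7) (hp : 0 < p) (hp1 : p < 1) :
    ∃ t s δ : ℝ, 0 < t ∧ t < 1 ∧ 0 < s ∧ s < 1 ∧ 0 < δ ∧ δ = c2 * c7 * t ^ p ∧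
      2 / c * t ≤ δ / 4 ∧ 2 / c * s ≤ δ / 8 ∧ c2 * s ^ p ≤ δ / 8 := by
  set k : ℝ := c * c2 * c7 / 8 with hk
  have hk0 : 0 < k := by positivity
  have h1p : 0 < 1 - p := by linarith
  set t : ℝ := min (1 / 2) (k ^ (1 / (1 - p))) with ht
  have ht0 : 0 < t := lt_min (by norm_num) (by positivity)
  have ht1 : t ≤ 1 / 2 := min_le_left _ _
  have htk : t ^ (1 - p) ≤ k := by
    calc t ^ (1 - p) ≤ (k ^ (1 / (1 - p))) ^ (1 - p) := by
          gcongr
          exact min_le_right _ _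
      _ = k := by
          rw [← Real.rpow_mul hk0.le, one_div, inv_mul_cancel₀ h1p.ne', Real.rpow_one]
  have htt : t = t ^ (1 - p) * t ^ p := by
    rw [← Real.rpow_add ht0]
    simp
  set δ : ℝ := c2 * c7 * t ^ p with hδ
  have hδ0 : 0 < δ := by positivity
  set s : ℝ := min (1 / 2) (min (c * δ / 16) ((δ / (8 * c2)) ^ (1 / p))) with hs
  have hs0 : 0 < s := lt_min (by norm_num) (lt_min (by positivity) (by positivity))
  refine ⟨t, s, δ, ht0, by linarith, hs0, ?_, hδ0, rfl, ?_, ?_, ?_⟩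
  · have : s ≤ 1 / 2 := min_le_left _ _
    linarith
  · calc 2 / c * t = 2 / c * (t ^ (1 - p) * t ^ p) := by rw [← htt]
      _ ≤ 2 / c * (k * t ^ p) := by gcongr
      _ = δ / 4 := by rw [hk, hδ]; field_simp; ring
  · calc 2 / c * s ≤ 2 / c * (c * δ / 16) := by
          gcongr
          exact (min_le_right _ _).trans (min_le_left _ _)
      _ = δ / 8 := by field_simp; ring
  · calc c2 * s ^ p ≤ c2 * ((δ / (8 * c2)) ^ (1 / p)) ^ p := by
          gcongr
          exact (min_le_right _ _).trans (min_le_right _ _)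
      _ = δ / 8 := by
          rw [← Real.rpow_mul (by positivity), one_div, inv_mul_cancel₀ hp.ne', Real.rpow_one]
          field_simp

/-- no zero at the apex of a wedge of opening larger than `π` -/
theorem apex {α c2 : ℝ} (hα : Real.pi / 2 < α) (hα' : α < Real.pi) (hc2 : 0 < c2) :
    ∃ b0 : ℝ, 0 < b0 ∧ ∃ τ : ℝ, 0 < τ ∧ τ < 1 ∧ ∃ Λ0 : ℝ, ∀ Λ : ℝ, Λ0 ≤ Λ →
      ∀ (R1 : ℝ) (Z M : ℂ → ℂ), 0 < R1 →
      (∀ w : ℂ, ‖w‖ ≤ R1 → DifferentiableAt ℂ Z w) → (∀ w : ℂ, ‖w‖ ≤ R1 → DifferentiableAt ℂ M w) →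
      (∀ w : ℂ, ‖w‖ ≤ R1 → ‖Z w‖ ≤ Real.exp (2 * Λ)) →
      (∀ w : ℂ, ‖w‖ ≤ R1 → ‖M w‖ ≤ Real.exp (b0 * Λ)) →
      (∀ z : ℂ, τ * R1 ≤ Real.exp z.re → Real.exp z.re ≤ R1 → |z.im| ≤ α →
        ‖Z (exp z)‖ ≤ Real.exp (b0 * Λ)) →
      (∀ z : ℂ, Real.exp z.re = R1 → |z.im| ≤ α →
        ‖Z (exp z) * M (exp z) - 1‖ ≤ Real.exp (-(c2 * Λ))) →
      Z 0 ≠ 0 := by
  have hpi := Real.pi_pos
  have hα0 : 0 < α := by linarith
  set p : ℝ := Real.pi / (2 * α) with hp
  have hp0 : 0 < p := by positivity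
  have hp1 : p < 1 := by rw [hp, div_lt_one (by positivity)]; linarith
  set c7 : ℝ := Real.cos (p * (Real.pi / 2)) with hc7
  have hc70 : 0 < c7 := by
    apply Real.cos_pos_of_mem_Ioo
    constructor
    · have : 0 < p * (Real.pi / 2) := by positivity
      linarith
    · nlinarith
  set c : ℝ := -Real.cos α with hc
  have hc0 : 0 < c := by
    have : Real.cos α < 0 := Real.cos_neg_of_pi_div_two_lt_of_lt hα (by linarith)
    linarith
  obtain ⟨t, s, δ, ht0, ht1, hs0, hs1, hδ0, hδ, hct, hcs, hsp⟩ := params hc0 hc2 hc70 hp0 hp1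
  refine ⟨δ / 24, by positivity, s * t, by positivity, by nlinarith, 1 / (δ / 24), ?_⟩
  intro Λ hΛ R1 Z M hR1 hdZ hdM hZ hM hG hA hZ0
  set b0 : ℝ := δ / 24 with hb0
  have hb00 : 0 < b0 := by positivity
  have hbΛ : 1 ≤ b0 * Λ := by
    rw [div_le_iff₀ hb00] at hΛ
    linarith
  have hΛ0 : 0 < Λ := by
    by_contra hcon
    push Not at hcon
    nlinarith
  have h2 : 2 ≤ Real.exp (b0 * Λ) := by
    have h3 : (2.7182818283 : ℝ) ≤ Real.exp 1 := Real.exp_one_gt_d9.le
    have := Real.exp_le_exp.2 hbΛ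
    linarith
  set x1 : ℝ := Real.log R1 with hx1
  set x : ℝ := x1 + Real.log t with hx
  set x0 : ℝ := x + Real.log s with hx0
  have hex1 : Real.exp x1 = R1 := Real.exp_log hR1
  have hex : Real.exp x = R1 * t := by rw [hx, Real.exp_add, hex1, Real.exp_log ht0]
  have hex0 : Real.exp x0 = R1 * t * s := by rw [hx0, Real.exp_add, hex, Real.exp_log hs0]
  have hlt : Real.log t < 0 := Real.log_neg ht0 ht1
  have hls : Real.log s < 0 := Real.log_neg hs0 hs1
  have hx01 : x0 < x1 := by linarith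
  have hxI : x ∈ Icc x0 x1 := ⟨by linarith, by linarith⟩
  have hIcc : ∀ z : ℂ, z.re ∈ Icc x0 x1 → s * t * R1 ≤ Real.exp z.re ∧ Real.exp z.re ≤ R1 := by
    intro z hz
    constructor
    · calc s * t * R1 = Real.exp x0 := by rw [hex0]; ring
        _ ≤ Real.exp z.re := Real.exp_le_exp.2 hz.1
    · rw [← hex1]; exact Real.exp_le_exp.2 hz.2
  have hnz : ∀ z : ℂ, z.re ∈ Icc x0 x1 → ‖exp z‖ ≤ R1 := by
    intro z hz
    rw [Complex.norm_exp]
    exact (hIcc z hz).2
  set F : ℂ → ℂ := fun w => Z w * M w - 1 with hF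
  have hdF : ∀ w : ℂ, ‖w‖ ≤ R1 → DifferentiableAt ℂ F w :=
    fun w hw => ((hdZ w hw).mul (hdM w hw)).sub_const 1
  -- from `Z` to `F`
  have hZF : ∀ (w : ℂ) (e : ℝ), 0 ≤ e → ‖w‖ ≤ R1 → ‖Z w‖ ≤ Real.exp (Λ * (b0 + e)) →
      ‖F w‖ ≤ Real.exp (Λ * (3 * b0 + e)) := by
    intro w e he hw h
    have h5 := hM w hw
    have h6 : 1 ≤ Real.exp (Λ * (b0 + e)) * Real.exp (b0 * Λ) := by
      rw [← Real.exp_add]
      apply Real.one_le_exp
      positivity
    calc ‖F w‖ ≤ ‖Z w * M w‖ + ‖(1 : ℂ)‖ := norm_sub_le _ _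
      _ = ‖Z w‖ * ‖M w‖ + 1 := by rw [norm_mul, norm_one]
      _ ≤ Real.exp (Λ * (b0 + e)) * Real.exp (b0 * Λ) + 1 := by gcongr
      _ ≤ 2 * (Real.exp (Λ * (b0 + e)) * Real.exp (b0 * Λ)) := by linarith
      _ ≤ Real.exp (b0 * Λ) * (Real.exp (Λ * (b0 + e)) * Real.exp (b0 * Λ)) := by gcongr
      _ = Real.exp (Λ * (3 * b0 + e)) := by
          rw [← Real.exp_add, ← Real.exp_add]; congr 1; ring
  -- in the wedge
  have hin := inside (F := F) (b := 3 * b0) hα hc2 hx01 hΛ0.le (by positivity)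
    (fun z hz => hdF _ (hnz z hz))
    (fun z hz hy => by
      have h5 := hZF (exp z) 0 le_rfl (hnz z hz) (by
        obtain ⟨h6, h7⟩ := hIcc z hz
        rw [add_zero, mul_comm]
        exact hG z h6 h7 hy)
      rwa [add_zero, mul_comm] at h5)
    (fun z hz hy => hA z (by rw [hz, hex1]) hy)
  -- outside of the wedge
  have hout := outside (Z := Z) (b := b0) hα hα' hc0 (by rw [hc]; linarith) hx01 hΛ0.le hb00.le
    (fun z hz => hdZ _ (hnz z hz)) (fun z hz => hZ _ (hnz z hz))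
    (fun z hz hy => by
      obtain ⟨h6, h7⟩ := hIcc z hz
      exact hG z h6 h7 hy)
  have e1 : Real.exp (x - x1) = t := by
    rw [hx, add_sub_cancel_left, Real.exp_log ht0]
  have e2 : Real.exp (x0 - x) = s := by
    rw [hx0, add_sub_cancel_left, Real.exp_log hs0]
  have e3 : Real.exp (p * (x - x1)) = t ^ p := by
    rw [hx, add_sub_cancel_left, Real.rpow_def_of_pos ht0, mul_comm]
  have e4 : Real.exp (p * (x0 - x1)) ≤ s ^ p := by
    rw [Real.rpow_def_of_pos hs0]
    apply Real.exp_le_exp.2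
    have : x0 - x1 ≤ Real.log s := by linarith
    nlinarith
  set E : ℝ := 2 / c * (t + s) with hE
  have hE0 : 0 ≤ E := by positivity
  have hEδ : E ≤ δ / 4 + δ / 8 := by rw [hE, mul_add]; linarith
  have hcirc : ∀ w : ℂ, ‖w‖ = Real.exp x → ‖F w‖ ≤ Real.exp (Λ * (3 * b0 + E)) := by
    intro w hw
    have hw0 : w ≠ 0 := by
      rw [← norm_pos_iff, hw]; exact Real.exp_pos _
    have hwR : ‖w‖ ≤ R1 := by rw [hw, ← hex1]; exact Real.exp_le_exp.2 hxI.2
    apply hZF w E hE0 hwR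
    set z : ℂ := Complex.log w with hz
    have hzw : exp z = w := Complex.exp_log hw0
    have hzre : z.re = x := by rw [hz, Complex.log_re, hw, Real.log_exp]
    have hzim : z.im = Complex.arg w := by rw [hz, Complex.log_im]
    have harg1 := Complex.neg_pi_lt_arg w
    have harg2 := Complex.arg_le_pi w
    by_cases h6 : |z.im| ≤ α
    · have h7 := hIcc z (by rw [hzre]; exact hxI)
      have h8 := hG z h7.1 h7.2 h6
      rw [hzw] at h8
      refine h8.trans (Real.exp_le_exp.2 ?_)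
      nlinarith
    · rw [not_le, lt_abs] at h6
      rcases h6 with h6 | h6
      · have h7 := hout z (by rw [hzre]; exact hxI) ⟨h6.le, by rw [hzim]; linarith⟩
        rw [hzw, hzre, e1, e2] at h7
        exact h7
      · have h8 : (z + 2 * Real.pi * I).re = x := by simp [hzre]
        have h9 : (z + 2 * Real.pi * I).im = z.im + 2 * Real.pi := by simp
        have h7 := hout (z + 2 * Real.pi * I) (by rw [h8]; exact hxI)
          ⟨by rw [h9, hzim]; linarith, by rw [h9]; linarith⟩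
        rw [Complex.exp_add, Complex.exp_two_pi_mul_I, mul_one, hzw, h8, e1, e2] at h7
        exact h7
  have hhalf : ∀ w : ℂ, ‖w‖ = Real.exp x → 0 ≤ w.re →
      ‖F w‖ ≤ Real.exp (Λ * (3 * b0 + δ / 8 - δ)) := by
    intro w hw hre
    have hw0 : w ≠ 0 := by
      rw [← norm_pos_iff, hw]; exact Real.exp_pos _
    set z : ℂ := Complex.log w with hz
    have hzw : exp z = w := Complex.exp_log hw0
    have hzre : z.re = x := by rw [hz, Complex.log_re, hw, Real.log_exp]
    have hzim : z.im = Complex.arg w := by rw [hz, Complex.log_im]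
    have h6 := hin z (by rw [hzre]; exact hxI)
      (by rw [hzim]; exact Complex.abs_arg_le_pi_div_two_iff.2 hre)
    rw [hzw, hzre] at h6
    refine h6.trans (Real.exp_le_exp.2 ?_)
    rw [e3, ← hδ]
    have h7 : c2 * Real.exp (p * (x0 - x1)) ≤ δ / 8 :=
      (mul_le_mul_of_nonneg_left e4 hc2.le).trans hsp
    exact mul_le_mul_of_nonneg_left (by linarith) hΛ0.le
  have hprod : ∀ w : ℂ, ‖w‖ = Real.exp x → ‖F w * F (-w)‖ ≤ Real.exp (-(Λ * (δ / 4))) := by
    intro w hw
    have hw' : ‖-w‖ = Real.exp x := by rw [norm_neg, hw]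
    have hexp : Real.exp (Λ * (3 * b0 + δ / 8 - δ)) * Real.exp (Λ * (3 * b0 + E)) ≤
        Real.exp (-(Λ * (δ / 4))) := by
      rw [← Real.exp_add]
      apply Real.exp_le_exp.2
      have : (3 * b0 + δ / 8 - δ) + (3 * b0 + E) ≤ -(δ / 4) := by
        rw [hb0]; linarith
      nlinarith
    rw [norm_mul]
    rcases le_total 0 w.re with h | h
    · calc ‖F w‖ * ‖F (-w)‖ ≤ Real.exp (Λ * (3 * b0 + δ / 8 - δ)) * Real.exp (Λ * (3 * b0 + E)) := by
            gcongr
            · exact hhalf w hw h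
            · exact hcirc _ hw'
        _ ≤ _ := hexp
    · calc ‖F w‖ * ‖F (-w)‖ = ‖F (-w)‖ * ‖F w‖ := mul_comm _ _
        _ ≤ Real.exp (Λ * (3 * b0 + δ / 8 - δ)) * Real.exp (Λ * (3 * b0 + E)) := by
            gcongr
            · exact hhalf _ hw' (by rw [Complex.neg_re]; linarith)
            · exact hcirc w hw
        _ ≤ _ := hexp
  have hr : 0 < Real.exp x := Real.exp_pos _
  have hrR : Real.exp x ≤ R1 := by rw [← hex1]; exact Real.exp_le_exp.2 hxI.2
  have hmax := Complex.norm_le_of_forall_mem_frontier_norm_le (f := fun w => F w * F (-w))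
    (U := ball (0 : ℂ) (Real.exp x)) (C := Real.exp (-(Λ * (δ / 4)))) isBounded_ball
    (by
      apply DifferentiableOn.diffContOnCl
      intro w hw
      rw [closure_ball _ hr.ne', mem_closedBall, dist_zero_right] at hw
      have h1 := hdF w (hw.trans hrR)
      have h3 : DifferentiableAt ℂ (fun w => F (-w)) w := by
        have h4 := hdF (-w) (by rw [norm_neg]; exact hw.trans hrR)
        exact h4.comp w differentiableAt_id.neg
      exact (h1.mul h3).differentiableWithinAt)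
    (by
      intro w hw
      rw [frontier_ball _ hr.ne', mem_sphere, dist_zero_right] at hw
      exact hprod w hw)
    (subset_closure (mem_ball_self hr))
  simp only [hF, neg_zero, hZ0, zero_mul, zero_sub, norm_mul, norm_neg, norm_one, mul_one] at hmax
  have : Real.exp (-(Λ * (δ / 4))) < 1 := by
    rw [Real.exp_lt_one_iff]
    have : 0 < Λ * (δ / 4) := by positivity
    linarith
  linarith

end Pool.Agent.X284.PZ
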