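import Pool.Agent.X284.PZ.Small
import Pool.Agent.X284.PZ.Apex

/-!
A zero of zeta at a corner of the set of zeros makes the mollifier large.
-/

set_option autoImplicit false

open Complex Metric Set Filter Topology

namespace Pool.Agent.X284.PZ

open DH31 H370 H370.Loc Pool.Agent.X284.AZ

/-- the half opening of the wedge -/
noncomputable def wang (lam : ℝ) : ℝ := Real.pi / 2 + Real.arctan lam / 2

/-- the distance of the wedge from the cone -/
lemma wedge_cone {lam : ℝ} (hlam : 0 < lam) : ∃ c : ℝ, 0 < c ∧ ∀ y : ℝ, |y| ≤ wang lam →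
    c ≤ Real.cos y + lam * |Real.sin y| := by
  set a0 : ℝ := Real.arctan lam with ha0
  have h0 : 0 < a0 := Real.arctan_pos.2 hlam
  have h1 : a0 < Real.pi / 2 := Real.arctan_lt_pi_div_two lam
  have hpi := Real.pi_pos
  have hcos : 0 < Real.cos a0 := Real.cos_pos_of_mem_Ioo ⟨by linarith, h1⟩
  have hsin : 0 < Real.sin (a0 / 2) := Real.sin_pos_of_pos_of_lt_pi (by linarith) (by linarith)
  have htan : lam * Real.cos a0 = Real.sin a0 := by
    have : Real.tan a0 = lam := Real.tan_arctan lam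
    rw [← this, Real.tan_eq_sin_div_cos]
    field_simp
  refine ⟨min (Real.cos a0) (Real.sin (a0 / 2)), lt_min hcos hsin, ?_⟩
  intro y hy
  have hy' : |y| ≤ Real.pi / 2 + a0 / 2 := hy
  have hy0 := abs_nonneg y
  have hs : |Real.sin y| = Real.sin |y| := by
    rcases abs_cases y with ⟨h, h'⟩ | ⟨h, h'⟩
    · rw [h, abs_of_nonneg]
      exact Real.sin_nonneg_of_nonneg_of_le_pi h' (by linarith)
    · rw [h, Real.sin_neg, abs_of_nonpos]
      exact Real.sin_nonpos_of_nonpos_of_neg_pi_le h'.le (by linarith)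
  rw [hs, ← Real.cos_abs y]
  have hkey : Real.cos (|y| - a0) = Real.cos a0 * (Real.cos |y| + lam * Real.sin |y|) := by
    rw [Real.cos_sub, ← htan]; ring
  have hlow : min (Real.cos a0) (Real.sin (a0 / 2)) ≤ Real.cos (|y| - a0) := by
    rcases le_total (|y|) a0 with h | h
    · refine (min_le_left _ _).trans ?_
      rw [← Real.cos_neg (|y| - a0)]
      exact Real.cos_le_cos_of_nonneg_of_le_pi (by linarith) (by linarith) (by linarith)
    · refine (min_le_right _ _).trans ?_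
      have : Real.sin (a0 / 2) = Real.cos (Real.pi / 2 - a0 / 2) := by
        rw [Real.cos_pi_div_two_sub]
      rw [this]
      exact Real.cos_le_cos_of_nonneg_of_le_pi (by linarith) (by linarith) (by linarith)
  have hpos : 0 < Real.cos (|y| - a0) := lt_of_lt_of_le (lt_min hcos hsin) hlow
  have hX : 0 < Real.cos |y| + lam * Real.sin |y| := by
    rw [hkey] at hpos
    exact (mul_pos_iff_of_pos_left hcos).1 hpos
  have hle : Real.cos (|y| - a0) ≤ Real.cos |y| + lam * Real.sin |y| := by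
    rw [hkey]
    have := Real.cos_le_one a0
    nlinarith
  exact hlow.trans hle

open Classical in
/-- the path `f` followed by the path `g` -/
noncomputable def cat (f g : ℝ → ℂ) (x : ℝ) : ℂ := if x ≤ 1 / 2 then f (2 * x) else g (2 * x - 1)

lemma cat_lip {f g : ℝ → ℂ} {K : ℝ} 
    (hf : ∀ x ∈ Icc (0 : ℝ) 1, ∀ y ∈ Icc (0 : ℝ) 1, ‖f x - f y‖ ≤ K * |x - y|)
    (hg : ∀ x ∈ Icc (0 : ℝ) 1, ∀ y ∈ Icc (0 : ℝ) 1, ‖g x - g y‖ ≤ K * |x - y|)
    (hfg : f 1 = g 0) :
    ∀ x ∈ Icc (0 : ℝ) 1, ∀ y ∈ Icc (0 : ℝ) 1, ‖cat f g x - cat f g y‖ ≤ 2 * K * |x - y| := by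
  have key : ∀ x ∈ Icc (0 : ℝ) 1, ∀ y ∈ Icc (0 : ℝ) 1, x ≤ y →
      ‖cat f g x - cat f g y‖ ≤ 2 * K * |x - y| := by
    intro x hx y hy hxy
    have habs : |x - y| = y - x := by rw [abs_of_nonpos (by linarith)]; ring
    rw [habs]
    unfold cat
    by_cases h1 : x ≤ 1 / 2
    · by_cases h2 : y ≤ 1 / 2
      · rw [if_pos h1, if_pos h2]
        have h3 := hf (2 * x) ⟨by linarith [hx.1], by linarith⟩ (2 * y)
          ⟨by linarith [hy.1], by linarith⟩
        have h4 : |2 * x - 2 * y| = 2 * (y - x) := by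
          rw [abs_of_nonpos (by linarith)]; ring
        rw [h4] at h3
        linarith
      · rw [if_pos h1, if_neg h2]
        push Not at h2
        have h3 := hf (2 * x) ⟨by linarith [hx.1], by linarith⟩ 1 ⟨zero_le_one, le_rfl⟩
        have h4 := hg 0 ⟨le_rfl, zero_le_one⟩ (2 * y - 1) ⟨by linarith, by linarith [hy.2]⟩
        have e1 : |2 * x - 1| = 1 - 2 * x := by
          rw [abs_of_nonpos (by linarith)]; ring
        have e2 : |0 - (2 * y - 1)| = 2 * y - 1 := by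
          rw [abs_of_nonpos (by linarith)]; ring
        rw [e1] at h3
        rw [e2] at h4
        calc ‖f (2 * x) - g (2 * y - 1)‖ = ‖(f (2 * x) - f 1) + (g 0 - g (2 * y - 1))‖ := by
              rw [hfg]; congr 1; ring
          _ ≤ ‖f (2 * x) - f 1‖ + ‖g 0 - g (2 * y - 1)‖ := norm_add_le _ _
          _ ≤ K * (1 - 2 * x) + K * (2 * y - 1) := add_le_add h3 h4
          _ = 2 * K * (y - x) := by ring
    · push Not at h1
      rw [if_neg (not_le.2 h1), if_neg (not_le.2 (h1.trans_le hxy))]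
      have h3 := hg (2 * x - 1) ⟨by linarith, by linarith [hx.2]⟩ (2 * y - 1)
        ⟨by linarith, by linarith [hy.2]⟩
      have h4 : |2 * x - 1 - (2 * y - 1)| = 2 * (y - x) := by
        rw [abs_of_nonpos (by linarith)]; ring
      rw [h4] at h3
      linarith
  intro x hx y hy
  rcases le_total x y with h | h
  · exact key x hx y hy h
  · rw [norm_sub_rev, abs_sub_comm]
    exact key y hy x hx h

/-- the points of the path -/
lemma cat_mem {f g : ℝ → ℂ} {x : ℝ} (hx : x ∈ Icc (0 : ℝ) 1) :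
    (∃ y ∈ Icc (0 : ℝ) 1, cat f g x = f y) ∨ (∃ y ∈ Icc (0 : ℝ) 1, cat f g x = g y) := by
  unfold cat
  by_cases h1 : x ≤ 1 / 2
  · left
    rw [if_pos h1]
    exact ⟨2 * x, ⟨by linarith [hx.1], by linarith⟩, rfl⟩
  · right
    rw [if_neg h1]
    push Not at h1
    exact ⟨2 * x - 1, ⟨by linarith, by linarith [hx.2]⟩, rfl⟩

/-- the segment from `ρ + e w` to `ρ + e R / 2` -/
noncomputable def seg (ρ e w : ℂ) (R x : ℝ) : ℂ := ρ + e * ((1 - x : ℝ) * w + (x * (R / 2) : ℝ))

/-- a zero at a corner makes the mollifier large -/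
theorem corner_bad {lam R R1 δ L κ : ℝ} (hlam : 0 < lam) (hR1 : 0 < R1) (hR1' : R1 ≤ 1 / 4)
    (hRR : 4 * R1 ≤ R) (hδ : 0 < δ) (hL : 0 ≤ L) (hκ : 0 < κ) (hκ1 : κ ≤ 1) :
    ∃ η : ℝ, 0 < η ∧ ∃ η₂ : ℝ, 0 < η₂ ∧ ∃ T0 : ℝ, ∀ T : ℝ, T0 ≤ T → ∀ σ : ℝ,
      1 / 2 + R1 ≤ σ → σ ≤ 1 → ∀ (ρ e : ℂ) (p : ℝ → ℂ), riemannZeta ρ = 0 → σ ≤ ρ.re →
      2 * (R + L) + 3 ≤ ρ.im → ρ.im ≤ T → ‖e‖ = 1 → 0 ≤ e.re →
      (∀ S : Finset ℂ, (∀ z ∈ S, (‖z - ρ‖ ≤ R ∧
          η - lam * |((z - ρ) * (starRingEnd ℂ) e).im| < ((z - ρ) * (starRingEnd ℂ) e).re) ∧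
          riemannZeta z = 0) →
        ∑ z ∈ S, (mult riemannZeta z : ℝ) ≤ η * Real.log T) →
      p 0 = ρ + e * ((R / 2 : ℝ) : ℂ) → 1 ≤ (p 1).re → (∀ x ∈ Icc (0 : ℝ) 1, σ ≤ (p x).re) →
      (∀ x ∈ Icc (0 : ℝ) 1, ∀ y ∈ Icc (0 : ℝ) 1, ‖p x - p y‖ ≤ L * |x - y|) →
      (∀ S : Finset ℂ, (∀ z ∈ S, (∃ x ∈ Icc (0 : ℝ) 1, ‖z - p x‖ ≤ δ) ∧ riemannZeta z = 0) →
        ∑ z ∈ S, (mult riemannZeta z : ℝ) ≤ η * Real.log T) →
      ∃ t : ℝ, |t - ρ.im| ≤ Real.log T + 2 * (R + L) + 1 ∧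
        T ^ η₂ ≤ ‖MX ⌊T ^ κ⌋₊ (((σ - 2 * R1 : ℝ) : ℂ) + t * I)‖ := by
  have hpi := Real.pi_pos
  have hR0 : 0 < R := by linarith
  have hat0 : 0 < Real.arctan lam := Real.arctan_pos.2 hlam
  have hat1 : Real.arctan lam < Real.pi / 2 := Real.arctan_lt_pi_div_two lam
  obtain ⟨cl, hcl, hroof⟩ := wedge_cone hlam
  have hcl1 : cl ≤ 1 := by
    have := hroof 0 (by rw [abs_zero, wang]; linarith)
    simpa using this
  set Lq : ℝ := 2 * (R + L) with hLq
  have hLq0 : 0 ≤ Lq := by positivity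
  -- the radius of the chain for the arc
  set r1 : ℝ := min (cl * R1 / (10 * (1 + lam))) (δ / 5) with hr1
  have hr10 : 0 < r1 := lt_min (by positivity) (by positivity)
  have hr1R : r1 ≤ R1 / 10 := by
    refine (min_le_left _ _).trans ?_
    rw [div_le_div_iff₀ (by positivity) (by norm_num)]
    have h1 : cl * R1 ≤ 1 * R1 := by gcongr
    nlinarith
  obtain ⟨η1, hη1, b1, hb1, c2, hc2, T1, hsm⟩ :=
    small_at (L := Lq) hr10 (by linarith) hLq0 hκ hκ1
  obtain ⟨b0, hb0, τ, hτ0, hτ1, Λ0, hapex⟩ :=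
    apex (α := wang lam) (by rw [wang]; linarith) (by rw [wang]; linarith) hc2
  -- the radius of the chain for the wedge
  set r2 : ℝ := min (cl * (τ * R1) / (10 * (1 + lam))) (δ / 5) with hr2
  have hr20 : 0 < r2 := lt_min (by positivity) (by positivity)
  have hr21 : r2 ≤ r1 := by
    rw [hr1, hr2]
    apply min_le_min _ le_rfl
    gcongr
    nlinarith
  obtain ⟨η2, hη2, T2, hze⟩ := zeta_at (L := Lq) hr20 (by linarith) hLq0 hb0
  obtain ⟨Ck, hCk, hker⟩ := kernel
  set b : ℝ := min b0 b1 with hb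
  have hbpos : 0 < b := lt_min hb0 hb1
  have ev1 : ∀ᶠ T : ℝ in atTop, Ck ≤ T ^ (b / 2) :=
    (tendsto_rpow_atTop (show 0 < b / 2 by positivity)).eventually_ge_atTop _
  have ev2 : ∀ᶠ T : ℝ in atTop, max Λ0 1 ≤ Real.log T := Real.tendsto_log_atTop.eventually_ge_atTop _
  obtain ⟨T3, hT3⟩ := Filter.eventually_atTop.1 ((ev1.and ev2).and (eventually_ge_atTop (8 : ℝ)))
  set η : ℝ := min (min η1 η2 / 2) (cl * (τ * R1) / 4) with hη
  have hη0 : 0 < η := lt_min (by positivity) (by positivity)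
  have hηa : η + η ≤ η1 := by
    have h1 : η ≤ min η1 η2 / 2 := min_le_left _ _
    have h2 : min η1 η2 ≤ η1 := min_le_left _ _
    linarith
  have hηb : η + η ≤ η2 := by
    have h1 : η ≤ min η1 η2 / 2 := min_le_left _ _
    have h2 : min η1 η2 ≤ η2 := min_le_right _ _
    linarith
  have hηc : η ≤ cl * (τ * R1) / 4 := min_le_right _ _
  refine ⟨η, hη0, b / 2, by positivity, max (max T1 T2) T3, ?_⟩
  intro T hT σ hσ hσ1 ρ e p hρ0 hρσ him hT' he1 he0 hcone hp0 hp1 hpσ hplip hpcount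
  have hT1 : T1 ≤ T := (le_max_left _ _).trans ((le_max_left _ _).trans hT)
  have hT2 : T2 ≤ T := (le_max_right _ _).trans ((le_max_left _ _).trans hT)
  obtain ⟨⟨e1, e2⟩, e3⟩ := hT3 T ((le_max_right _ _).trans hT)
  have hTpos : 0 < T := by linarith
  have hT1' : 1 ≤ T := by linarith
  have hΛ0 : Λ0 ≤ Real.log T := (le_max_left _ _).trans e2
  have hΛ1 : 1 ≤ Real.log T := (le_max_right _ _).trans e2
  by_contra hcon
  push Not at hcon
  have hρ1 : ρ.re < 1 := by
    by_contra hc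
    push Not at hc
    exact riemannZeta_ne_zero_of_one_le_re hc hρ0
  have hrpow : ∀ e : ℝ, T ^ e = Real.exp (e * Real.log T) := by
    intro e; rw [Real.rpow_def_of_pos hTpos, mul_comm]
  have hcc : (starRingEnd ℂ) e * e = 1 := by
    rw [mul_comm, Complex.mul_conj, Complex.normSq_eq_norm_sq, he1]; norm_num
  have hcn : ‖(starRingEnd ℂ) e‖ = 1 := by rw [RCLike.norm_conj, he1]
  -- the mollifier
  have hXT : (⌊T ^ κ⌋₊ : ℝ) ≤ T := by
    calc (⌊T ^ κ⌋₊ : ℝ) ≤ T ^ κ := Nat.floor_le (by positivity)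
      _ ≤ T ^ (1 : ℝ) := Real.rpow_le_rpow_of_exponent_le hT1' hκ1
      _ = T := Real.rpow_one T
  have hTb : 1 ≤ T ^ (b / 2) := Real.one_le_rpow hT1' (by positivity)
  have hM : ∀ z : ℂ, σ - 2 * R1 ≤ z.re → |z.im - ρ.im| ≤ Lq + 1 → ‖MX ⌊T ^ κ⌋₊ z‖ ≤ T ^ b := by
    intro z hz1 hz2
    have h5 := hker ⌊T ^ κ⌋₊ T (T ^ (b / 2)) (σ - 2 * R1) hXT hΛ1 hTb (by linarith) (by linarith) z
      hz1 fun t ht => ?_
    · calc ‖MX ⌊T ^ κ⌋₊ z‖ ≤ Ck * T ^ (b / 2) := h5
        _ ≤ T ^ (b / 2) * T ^ (b / 2) := by gcongr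
        _ = T ^ b := by rw [← Real.rpow_add hTpos]; congr 1; ring
    · refine (hcon t ?_).le
      calc |t - ρ.im| = |(t - z.im) + (z.im - ρ.im)| := by congr 1; ring
        _ ≤ |t - z.im| + |z.im - ρ.im| := abs_add_le _ _
        _ ≤ Real.log T + Lq + 1 := by linarith
  have hTbb : ∀ e : ℝ, b ≤ e → T ^ b ≤ T ^ e := fun e he =>
    Real.rpow_le_rpow_of_exponent_le hT1' he
  have hnorm_of : ∀ (z : ℂ) (d : ℝ), ‖z - ρ‖ ≤ d → |z.re - ρ.re| ≤ d ∧ |z.im - ρ.im| ≤ d := by
    intro z d h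
    have h1 := (Complex.abs_re_le_norm _).trans h
    have h2 := (Complex.abs_im_le_norm _).trans h
    rw [Complex.sub_re] at h1
    rw [Complex.sub_im] at h2
    exact ⟨h1, h2⟩
  -- the paths
  have hpath : ∀ (r : ℝ) (z : ℂ), 0 < r → r ≤ r1 → 2 * (5 * r * (1 + lam)) ≤ cl * Real.exp z.re →
      Real.exp z.re ≤ R1 → |z.im| ≤ wang lam → η < cl * Real.exp z.re / 2 →
      (∀ x ∈ Icc (0 : ℝ) 1, 1 / 2 ≤ (cat (seg ρ e (exp z) R) p x).re ∧
        2 ≤ (cat (seg ρ e (exp z) R) p x).im ∧ ‖cat (seg ρ e (exp z) R) p x‖ ≤ T + Lq + 3) ∧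
      1 ≤ (cat (seg ρ e (exp z) R) p 1).re ∧
      (∀ x ∈ Icc (0 : ℝ) 1, ∀ y ∈ Icc (0 : ℝ) 1,
        ‖cat (seg ρ e (exp z) R) p x - cat (seg ρ e (exp z) R) p y‖ ≤ Lq * |x - y|) ∧
      (∀ S : Finset ℂ, (∀ w ∈ S, (∃ x ∈ Icc (0 : ℝ) 1, ‖w - cat (seg ρ e (exp z) R) p x‖ ≤ 5 * r) ∧
        riemannZeta w = 0) → ∑ w ∈ S, (mult riemannZeta w : ℝ) ≤ (η + η) * Real.log T) ∧
      (∀ w : ℂ, (∃ x ∈ Icc (0 : ℝ) 1, ‖w - cat (seg ρ e (exp z) R) p x‖ ≤ 2 * r) →
        ‖MX ⌊T ^ κ⌋₊ w‖ ≤ T ^ b) := by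
    intro r z hr0 hrr hrz hzR hang hηm
    set m : ℝ := Real.exp z.re with hm
    have hm0 : 0 < m := Real.exp_pos _
    have hwre : (exp z).re = m * Real.cos z.im := by rw [Complex.exp_re]
    have hwim : (exp z).im = m * Real.sin z.im := by rw [Complex.exp_im]
    have hnw : ‖exp z‖ = m := by rw [Complex.norm_exp]
    have hrr' : r ≤ R1 / 10 := hrr.trans hr1R
    have hr5δ : 5 * r ≤ δ := by
      have : r1 ≤ δ / 5 := min_le_right _ _
      linarith
    have hroof' : cl * m ≤ (exp z).re + lam * |(exp z).im| := by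
      rw [hwre, hwim, abs_mul, abs_of_pos hm0]
      have := mul_le_mul_of_nonneg_left (hroof z.im hang) hm0.le
      nlinarith
    -- the segment
    have hsegn : ∀ x ∈ Icc (0 : ℝ) 1, ‖seg ρ e (exp z) R x - ρ‖ ≤ R / 2 := by
      intro x hx
      simp only [seg, add_sub_cancel_left]
      rw [norm_mul, he1, one_mul]
      refine (norm_add_le _ _).trans ?_
      rw [norm_mul, Complex.norm_real, Complex.norm_real,
        Real.norm_of_nonneg (show 0 ≤ 1 - x by linarith [hx.2]),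
        Real.norm_of_nonneg (mul_nonneg hx.1 (by positivity)), hnw]
      have h1 : (1 - x) * m ≤ (1 - x) * (R / 2) := by
        apply mul_le_mul_of_nonneg_left _ (by linarith [hx.2])
        linarith
      nlinarith
    have hsegre : ∀ x ∈ Icc (0 : ℝ) 1, ρ.re - R1 ≤ (seg ρ e (exp z) R x).re := by
      intro x hx
      have h1 : (seg ρ e (exp z) R x).re = ρ.re + (1 - x) * (e * exp z).re + x * (R / 2) * e.re := by
        simp only [seg, mul_add, Complex.add_re]
        have e1 : e * (((1 - x : ℝ) : ℂ) * exp z) = ((1 - x : ℝ) : ℂ) * (e * exp z) := by ring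
        have e2 : e * ((x * (R / 2) : ℝ) : ℂ) = ((x * (R / 2) : ℝ) : ℂ) * e := by ring
        rw [e1, e2, Complex.re_ofReal_mul, Complex.re_ofReal_mul]
        ring
      have h2 : -R1 ≤ (e * exp z).re := by
        have := abs_le.1 ((Complex.abs_re_le_norm (e * exp z)).trans (le_of_eq (norm_mul _ _)))
        rw [he1, one_mul, hnw] at this
        linarith [this.1]
      have h3 : 0 ≤ x * (R / 2) * e.re := mul_nonneg (mul_nonneg hx.1 (by positivity)) he0
      have h4 : (1 - x) * -R1 ≤ (1 - x) * (e * exp z).re :=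
        mul_le_mul_of_nonneg_left h2 (by linarith [hx.2])
      have h5 : 0 ≤ x * R1 := mul_nonneg hx.1 hR1.le
      rw [h1]
      nlinarith
    have hsegc : ∀ x ∈ Icc (0 : ℝ) 1, cl * m ≤
        ((seg ρ e (exp z) R x - ρ) * (starRingEnd ℂ) e).re +
          lam * |((seg ρ e (exp z) R x - ρ) * (starRingEnd ℂ) e).im| := by
      intro x hx
      have h1 : (seg ρ e (exp z) R x - ρ) * (starRingEnd ℂ) e =
          ((1 - x : ℝ) : ℂ) * exp z + ((x * (R / 2) : ℝ) : ℂ) := by
        simp only [seg, add_sub_cancel_left]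
        calc _ = (((1 - x : ℝ) : ℂ) * exp z + ((x * (R / 2) : ℝ) : ℂ)) * ((starRingEnd ℂ) e * e) := by
              ring
          _ = _ := by rw [hcc, mul_one]
      rw [h1, Complex.add_re, Complex.add_im, Complex.re_ofReal_mul, Complex.im_ofReal_mul,
        Complex.ofReal_re, Complex.ofReal_im, add_zero, abs_mul,
        abs_of_nonneg (show 0 ≤ 1 - x by linarith [hx.2])]
      have h2 : (1 - x) * (cl * m) ≤ (1 - x) * ((exp z).re + lam * |(exp z).im|) :=
        mul_le_mul_of_nonneg_left hroof' (by linarith [hx.2])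
      have h3 : x * (cl * m) ≤ x * (R / 2) := by
        apply mul_le_mul_of_nonneg_left _ hx.1
        have : cl * m ≤ 1 * R1 := by gcongr
        linarith
      nlinarith
    -- the second path
    have hpn : ∀ x ∈ Icc (0 : ℝ) 1, ‖p x - ρ‖ ≤ R / 2 + L := by
      intro x hx
      have h1 := hplip x hx 0 ⟨le_rfl, zero_le_one⟩
      rw [sub_zero, abs_of_nonneg hx.1] at h1
      calc ‖p x - ρ‖ = ‖(p x - p 0) + (p 0 - ρ)‖ := by congr 1; ring
        _ ≤ ‖p x - p 0‖ + ‖p 0 - ρ‖ := norm_add_le _ _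
        _ ≤ L * x + R / 2 := by
            apply add_le_add h1
            rw [hp0, add_sub_cancel_left, norm_mul, he1, one_mul, Complex.norm_real,
              Real.norm_of_nonneg (by positivity)]
        _ ≤ R / 2 + L := by nlinarith [hx.2]
    have hall : ∀ x ∈ Icc (0 : ℝ) 1, σ - R1 ≤ (cat (seg ρ e (exp z) R) p x).re ∧
        ‖cat (seg ρ e (exp z) R) p x - ρ‖ ≤ R + L := by
      intro x hx
      rcases cat_mem (f := seg ρ e (exp z) R) (g := p) hx with ⟨y, hy, h⟩ | ⟨y, hy, h⟩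
      · rw [h]
        exact ⟨by linarith [hsegre y hy], by linarith [hsegn y hy]⟩
      · rw [h]
        exact ⟨by linarith [hpσ y hy], by linarith [hpn y hy]⟩
    refine ⟨?_, ?_, ?_, ?_, ?_⟩
    · intro x hx
      obtain ⟨h1, h2⟩ := hall x hx
      obtain ⟨h3, h4⟩ := hnorm_of _ _ h2
      have h3' := abs_le.1 h3
      have h4' := abs_le.1 h4
      refine ⟨by linarith, by linarith [h4'.1], ?_⟩
      refine (Complex.norm_le_abs_re_add_abs_im _).trans ?_
      rw [abs_of_nonneg (by linarith), abs_of_nonneg (by linarith [h4'.1])]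
      linarith [h3'.2, h4'.2]
    · have : cat (seg ρ e (exp z) R) p 1 = p 1 := by
        unfold cat
        rw [if_neg (by norm_num)]
        norm_num
      rw [this]; exact hp1
    · have h1 : ∀ x ∈ Icc (0 : ℝ) 1, ∀ y ∈ Icc (0 : ℝ) 1,
          ‖seg ρ e (exp z) R x - seg ρ e (exp z) R y‖ ≤ (R + L) * |x - y| := by
        intro x hx y hy
        have h2 : seg ρ e (exp z) R x - seg ρ e (exp z) R y =
            e * (((x - y : ℝ) : ℂ) * (((R / 2 : ℝ) : ℂ) - exp z)) := by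
          simp only [seg]; push_cast; ring
        rw [h2, norm_mul, norm_mul, he1, one_mul, Complex.norm_real, Real.norm_eq_abs]
        have h3 : ‖((R / 2 : ℝ) : ℂ) - exp z‖ ≤ R + L := by
          refine (norm_sub_le _ _).trans ?_
          rw [Complex.norm_real, Real.norm_of_nonneg (by positivity), hnw]
          linarith
        calc |x - y| * ‖((R / 2 : ℝ) : ℂ) - exp z‖ ≤ |x - y| * (R + L) := by gcongr
          _ = _ := mul_comm _ _
      have h2 : ∀ x ∈ Icc (0 : ℝ) 1, ∀ y ∈ Icc (0 : ℝ) 1, ‖p x - p y‖ ≤ (R + L) * |x - y| := by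
        intro x hx y hy
        refine (hplip x hx y hy).trans ?_
        gcongr
        linarith
      exact cat_lip h1 h2 (by rw [hp0]; simp [seg])
    · intro S hS
      classical
      have hsplit : ∀ w ∈ S, ((‖w - ρ‖ ≤ R ∧
          η - lam * |((w - ρ) * (starRingEnd ℂ) e).im| < ((w - ρ) * (starRingEnd ℂ) e).re) ∧
          riemannZeta w = 0) ∨ ((∃ x ∈ Icc (0 : ℝ) 1, ‖w - p x‖ ≤ δ) ∧ riemannZeta w = 0) := by
        intro w hw
        obtain ⟨⟨x, hx, h1⟩, h2⟩ := hS w hw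
        rcases cat_mem (f := seg ρ e (exp z) R) (g := p) hx with ⟨y, hy, h⟩ | ⟨y, hy, h⟩
        · left
          rw [h] at h1
          refine ⟨⟨?_, ?_⟩, h2⟩
          · calc ‖w - ρ‖ = ‖(w - seg ρ e (exp z) R y) + (seg ρ e (exp z) R y - ρ)‖ := by
                  congr 1; ring
              _ ≤ ‖w - seg ρ e (exp z) R y‖ + ‖seg ρ e (exp z) R y - ρ‖ := norm_add_le _ _
              _ ≤ 5 * r + R / 2 := add_le_add h1 (hsegn y hy)
              _ ≤ R := by linarith
          · have h3 := hsegc y hy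
            set u : ℂ := (seg ρ e (exp z) R y - ρ) * (starRingEnd ℂ) e with hu
            set v : ℂ := (w - ρ) * (starRingEnd ℂ) e with hv
            have h4 : ‖v - u‖ ≤ 5 * r := by
              have : v - u = (w - seg ρ e (exp z) R y) * (starRingEnd ℂ) e := by
                rw [hu, hv]; ring
              rw [this, norm_mul, hcn, mul_one]
              exact h1
            have h5 := abs_le.1 ((Complex.abs_re_le_norm _).trans h4)
            have h6 := (Complex.abs_im_le_norm _).trans h4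
            rw [Complex.sub_re] at h5
            rw [Complex.sub_im] at h6
            have h7 : |u.im| ≤ |v.im| + 5 * r := by
              calc |u.im| = |v.im - (v.im - u.im)| := by congr 1; ring
                _ ≤ |v.im| + |v.im - u.im| := abs_sub _ _
                _ ≤ _ := by linarith
            have h8 : lam * |u.im| ≤ lam * |v.im| + lam * (5 * r) := by nlinarith
            nlinarith [h5.1]
        · right
          rw [h] at h1
          exact ⟨⟨y, hy, h1.trans hr5δ⟩, h2⟩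
      set S1 : Finset ℂ := S.filter (fun w => (‖w - ρ‖ ≤ R ∧
          η - lam * |((w - ρ) * (starRingEnd ℂ) e).im| < ((w - ρ) * (starRingEnd ℂ) e).re) ∧
          riemannZeta w = 0) with hS1
      set S2 : Finset ℂ := S.filter (fun w => (∃ x ∈ Icc (0 : ℝ) 1, ‖w - p x‖ ≤ δ) ∧
          riemannZeta w = 0) with hS2
      have hsub : S ⊆ S1 ∪ S2 := by
        intro w hw
        rw [Finset.mem_union, hS1, hS2, Finset.mem_filter, Finset.mem_filter]
        rcases hsplit w hw with h | h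
        · exact Or.inl ⟨hw, h⟩
        · exact Or.inr ⟨hw, h⟩
      have hm0 : ∀ w : ℂ, (0 : ℝ) ≤ (mult riemannZeta w : ℝ) := fun w => by positivity
      calc ∑ w ∈ S, (mult riemannZeta w : ℝ) ≤ ∑ w ∈ S1 ∪ S2, (mult riemannZeta w : ℝ) :=
            Finset.sum_le_sum_of_subset_of_nonneg hsub fun w _ _ => hm0 w
        _ ≤ ∑ w ∈ S1 ∪ S2, (mult riemannZeta w : ℝ) + ∑ w ∈ S1 ∩ S2, (mult riemannZeta w : ℝ) := by
            have := Finset.sum_nonneg (s := S1 ∩ S2) fun w _ => hm0 w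
            linarith
        _ = ∑ w ∈ S1, (mult riemannZeta w : ℝ) + ∑ w ∈ S2, (mult riemannZeta w : ℝ) :=
            Finset.sum_union_inter
        _ ≤ η * Real.log T + η * Real.log T := by
            apply add_le_add
            · exact hcone S1 fun w hw => (Finset.mem_filter.1 hw).2
            · exact hpcount S2 fun w hw => (Finset.mem_filter.1 hw).2
        _ = (η + η) * Real.log T := by ring
    · rintro w ⟨x, hx, h1⟩
      obtain ⟨h2, h3⟩ := hall x hx
      have h4 := abs_le.1 ((Complex.abs_re_le_norm _).trans h1)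
      rw [Complex.sub_re] at h4
      refine hM w (by linarith [h4.1]) ?_
      have h5 : ‖w - ρ‖ ≤ Lq + 1 := by
        calc ‖w - ρ‖ = ‖(w - cat (seg ρ e (exp z) R) p x) + (cat (seg ρ e (exp z) R) p x - ρ)‖ := by
              congr 1; ring
          _ ≤ ‖w - cat (seg ρ e (exp z) R) p x‖ + ‖cat (seg ρ e (exp z) R) p x - ρ‖ :=
              norm_add_le _ _
          _ ≤ 2 * r + (R + L) := add_le_add h1 h3
          _ ≤ Lq + 1 := by rw [hLq]; linarith
      exact (hnorm_of w _ h5).2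
  have h5r1 : 2 * (5 * r1 * (1 + lam)) ≤ cl * R1 := by
    have h1 : r1 ≤ cl * R1 / (10 * (1 + lam)) := min_le_left _ _
    rw [le_div_iff₀ (by positivity)] at h1
    linarith
  have h5r2 : 2 * (5 * r2 * (1 + lam)) ≤ cl * (τ * R1) := by
    have h1 : r2 ≤ cl * (τ * R1) / (10 * (1 + lam)) := min_le_left _ _
    rw [le_div_iff₀ (by positivity)] at h1
    linarith
  have hclτ : 0 < cl * (τ * R1) := by positivity
  have hτR : τ * R1 ≤ R1 := by nlinarith
  -- the apex
  have hdiffζ : ∀ w : ℂ, ‖w‖ ≤ R1 → DifferentiableAt ℂ riemannZeta (ρ + e * w) := by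
    intro w hw
    have h1 : ‖e * w‖ ≤ R1 := by rw [norm_mul, he1, one_mul]; exact hw
    have h2 := abs_le.1 ((Complex.abs_im_le_norm _).trans h1)
    have h4 : AnalyticAt ℂ riemannZeta (ρ + e * w) := zeta_analyticAt (by
      rw [Complex.add_im]; linarith [h2.1])
    exact h4.differentiableAt
  have hdl : ∀ w : ℂ, DifferentiableAt ℂ (fun w : ℂ => ρ + e * w) w := fun w => by fun_prop
  refine hapex (Real.log T) hΛ0 R1 (fun w => riemannZeta (ρ + e * w))
    (fun w => MX ⌊T ^ κ⌋₊ (ρ + e * w)) hR1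
    (fun w hw => ?_) (fun w hw => ?_) ?_ ?_ ?_ ?_ (by simpa using hρ0)
  · have h1 := hdl w
    exact (hdiffζ w hw).comp w h1
  · have h1 := hdl w
    have h2 : DifferentiableAt ℂ (MX ⌊T ^ κ⌋₊ ∘ fun w : ℂ => ρ + e * w) w :=
      DifferentiableAt.comp w (MX_differentiable ⌊T ^ κ⌋₊ (ρ + e * w)) h1
    exact h2
  · intro w hw
    have h0 : ‖e * w‖ ≤ R1 := by rw [norm_mul, he1, one_mul]; exact hw
    have h1 := abs_le.1 ((Complex.abs_re_le_norm _).trans h0)
    have h2 := abs_le.1 ((Complex.abs_im_le_norm _).trans h0)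
    have h3 : ‖ρ + e * w‖ ≤ T + 2 := by
      refine (Complex.norm_le_abs_re_add_abs_im _).trans ?_
      rw [Complex.add_re, Complex.add_im, abs_of_nonneg (by linarith [h1.1]),
        abs_of_nonneg (by linarith [h2.1])]
      linarith [h1.2, h2.2]
    have h4 := Pool.Agent.H388LH.zeta_growth (s := ρ + e * w)
      (by rw [Complex.add_re]; linarith [h1.1]) (by rw [Complex.add_im]; linarith [h2.1])
    refine h4.trans ?_
    rw [← hrpow 2]
    have : T ^ (2 : ℝ) = T ^ 2 := by norm_cast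
    rw [this]
    nlinarith [norm_nonneg (ρ + e * w)]
  · intro w hw
    have h0 : ‖e * w‖ ≤ R1 := by rw [norm_mul, he1, one_mul]; exact hw
    have h1 := abs_le.1 ((Complex.abs_re_le_norm _).trans h0)
    have h2 := abs_le.1 ((Complex.abs_im_le_norm _).trans h0)
    have h3 := hM (ρ + e * w) (by rw [Complex.add_re]; linarith [h1.1]) (by
      rw [Complex.add_im, add_sub_cancel_left, abs_le]
      constructor <;> linarith [h2.1, h2.2])
    rw [← hrpow b0]
    exact h3.trans (hTbb _ (min_le_left _ _))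
  · intro z hz1 hz2 hz3
    have hz4 : cl * (τ * R1) ≤ cl * Real.exp z.re := mul_le_mul_of_nonneg_left hz1 hcl.le
    obtain ⟨g1, g2, g3, g4, g5⟩ := hpath r2 z hr20 hr21 (h5r2.trans hz4) hz2 hz3 (by linarith)
    have h1 := hze T hT2 _ g1 g2 g3 (fun S hS => (g4 S hS).trans (by gcongr))
    rw [← hrpow b0]
    have h2 : cat (seg ρ e (exp z) R) p 0 = ρ + e * exp z := by
      unfold cat
      rw [if_pos (by norm_num)]
      simp [seg]
    rwa [h2] at h1
  · intro z hz1 hz3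
    have hz4 : cl * (τ * R1) ≤ cl * Real.exp z.re := by
      rw [hz1]; gcongr
    obtain ⟨g1, g2, g3, g4, g5⟩ := hpath r1 z hr10 le_rfl (by rw [hz1]; exact h5r1) hz1.le hz3
      (by linarith)
    have h1 := hsm T hT1 _ g1 g2 g3 (fun S hS => (g4 S hS).trans (by gcongr))
      (fun w hw => (g5 w hw).trans (hTbb _ (min_le_right _ _)))
    have h2 : cat (seg ρ e (exp z) R) p 0 = ρ + e * exp z := by
      unfold cat
      rw [if_pos (by norm_num)]
      simp [seg]
    rwa [h2] at h1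

end Pool.Agent.X284.PZ
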