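import Pool.Agent.X284.AZ.Bad
import Pool.Agent.H31R2.DH.Assemble

/-!
Counting the zeros near which the mollifier is large.
-/

set_option autoImplicit false

open Complex Metric MeasureTheory Set Filter Topology

namespace Pool.Agent.X284.PZ

open DH31 Pool.Agent.X284.AZ

/-- the zeros near which the mollifier is large -/
theorem count_bound {κ η₂ L : ℝ} (hκ0 : 0 < κ) (hκ1 : κ ≤ 1) (hη₂ : 0 < η₂) (hL : 0 ≤ L) :
    ∃ C : ℝ, 0 < C ∧ ∃ T₀ : ℝ, ∀ T : ℝ, T₀ ≤ T → ∀ σ : ℝ, 1 / 2 ≤ σ → σ ≤ 1 →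
      ∀ r : ℝ, 0 ≤ r → r ≤ 1 / 2 → ∀ A : Set ℂ, A ⊆ DH31.zeros σ T →
      (∀ w ∈ A, L + 3 ≤ w.im → ∃ t : ℝ, |t - w.im| ≤ Real.log T + L + 1 ∧
        T ^ η₂ ≤ ‖MX ⌊T ^ κ⌋₊ (((σ - r : ℝ) : ℂ) + t * I)‖) →
      (cnt A : ℝ) ≤ C * T ^ (2 - 2 * (σ - r) + 9 * κ) := by
  classical
  obtain ⟨C2, hC2, T2, hbig⟩ := Pool.Agent.X284.AZ.bigM hκ0 hκ1 hη₂
  obtain ⟨C3, hC3, hwin⟩ := DH31.windows_to_count
  have ev1 := DH31.ev_log (2 * L + 13) κ 1 hκ0
  have ev2 : ∀ᶠ T : ℝ in atTop, 1 ≤ Real.log T := Real.tendsto_log_atTop.eventually_ge_atTop _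
  have ev3 := DH31.ev_log 2 1 1 one_pos
  obtain ⟨T3, hT3⟩ := Filter.eventually_atTop.1 ((ev1.and ev2).and
    (ev3.and (eventually_ge_atTop (2 * L + 10 : ℝ))))
  refine ⟨C3 * (2 + C2), by positivity, max T2 T3, ?_⟩
  intro T hT σ hσ hσ1 r hr0 hr1 A hAσ hbad
  have hT2 : T2 ≤ T := (le_max_left _ _).trans hT
  obtain ⟨⟨e1, e2⟩, ⟨e3, e4⟩⟩ := hT3 T ((le_max_right _ _).trans hT)
  rw [pow_one] at e1 e3
  rw [Real.rpow_one] at e3
  have hT10 : 10 ≤ T := by linarith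
  have hTpos : 0 < T := by linarith
  have hAsub : A ⊆ DH31.zeros (1 / 2) T := by
    intro ρ hρ
    obtain ⟨a1, a2, a3, a4⟩ := hAσ hρ
    exact ⟨a1, hσ.trans a2, a3, a4⟩
  -- the intervals with large values of the mollifier
  set X : ℕ := ⌊T ^ κ⌋₊ with hX
  set N0 : ℕ := ⌊T + Real.log T + L + 1⌋₊ + 1 with hN0
  have hN0T : (N0 : ℝ) ≤ 2 * T := by
    rw [hN0]; push_cast
    have := Nat.floor_le (show 0 ≤ T + Real.log T + L + 1 by linarith)
    linarith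
  set P : ℕ → Prop := fun n => ∃ t : ℝ, t ∈ Icc (n : ℝ) (n + 1) ∧
    T ^ η₂ ≤ ‖DH31.MX X (((σ - r : ℝ) : ℂ) + t * I)‖ with hP
  set B : Finset ℕ := (Finset.range N0).filter P with hB
  have hBP : ∀ n ∈ B, P n := fun n hn => (Finset.mem_filter.1 hn).2
  choose! t ht1 ht2 using hBP
  have hBcard : (B.card : ℝ) ≤ C2 * T ^ (2 - 2 * (σ - r) + 7 * κ) :=
    hbig T hT2 (σ - r) (by linarith) (by linarith) N0 hN0T B (Finset.filter_subset _ _) t ht1 ht2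
  set D : ℕ := ⌈Real.log T + L + 4⌉₊ with hD
  have hD1 : Real.log T + L + 4 ≤ D := Nat.le_ceil _
  have hD2 : (D : ℝ) ≤ Real.log T + L + 5 := by
    have := (Nat.ceil_lt_add_one (show 0 ≤ Real.log T + L + 4 by linarith)).le
    rw [← hD] at this
    linarith
  have hDκ : 2 * (D : ℝ) + 1 ≤ T ^ κ := by
    refine le_trans ?_ e1
    nlinarith
  set S : Finset ℕ := Finset.range (D + 1) ∪ B.biUnion (fun m => Finset.Icc (m - D) (m + D)) with hS
  have hScard : (S.card : ℝ) ≤ (D + 1) + B.card * (2 * D + 1) := by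
    have h1 : S.card ≤ (D + 1) + B.card * (2 * D + 1) := by
      refine (Finset.card_union_le _ _).trans ?_
      rw [Finset.card_range]
      gcongr
      refine Finset.card_biUnion_le_card_mul _ _ _ fun m _ => ?_
      rw [Nat.card_Icc]
      omega
    exact_mod_cast h1
  have hcnt := hwin T (by linarith) A hAsub S (by
    intro w hw hw3
    obtain ⟨w1, w2, w3, w4⟩ := hAσ hw
    set n : ℕ := ⌈w.im⌉₊ - 1 with hn
    have hceil : 1 ≤ ⌈w.im⌉₊ := Nat.one_le_iff_ne_zero.2 (by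
      intro h; rw [Nat.ceil_eq_zero] at h; linarith)
    have hn1 : ((n : ℕ) : ℝ) + 1 = (⌈w.im⌉₊ : ℝ) := by
      rw [hn]
      have : ((⌈w.im⌉₊ - 1 : ℕ) : ℝ) = (⌈w.im⌉₊ : ℝ) - 1 := by
        push_cast [Nat.cast_sub hceil]; ring
      rw [this]; ring
    have h10 : (n : ℝ) < w.im := by
      have := Nat.ceil_lt_add_one (show 0 ≤ w.im by linarith)
      linarith
    have h11 : w.im ≤ n + 1 := by rw [hn1]; exact Nat.le_ceil _
    refine ⟨n, ?_, h10, h11⟩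
    rw [hS, Finset.mem_union]
    rcases le_total w.im (Real.log T + L + 3) with hlow | hhigh
    · left
      rw [Finset.mem_range]
      have : (n : ℝ) < D + 1 := by linarith
      exact_mod_cast this
    · right
      obtain ⟨u, hu1, hu2⟩ := hbad w hw (by linarith)
      have hu := abs_le.1 hu1
      have hu0 : 0 ≤ u := by linarith [hu.1]
      have hm1 := Nat.floor_le hu0
      have hm2 := Nat.lt_floor_add_one u
      rw [Finset.mem_biUnion]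
      refine ⟨⌊u⌋₊, ?_, ?_⟩
      · rw [hB, Finset.mem_filter, Finset.mem_range]
        refine ⟨?_, u, ⟨hm1, hm2.le⟩, hu2⟩
        rw [hN0, Nat.lt_succ_iff]
        exact Nat.floor_le_floor (by linarith [hu.2])
      · rw [Finset.mem_Icc]
        constructor
        · have h1 : ((⌊u⌋₊ : ℕ) : ℝ) ≤ n + D := by linarith [hu.2]
          have h2 : ⌊u⌋₊ ≤ n + D := by exact_mod_cast h1
          omega
        · have h1 : (n : ℝ) ≤ ((⌊u⌋₊ : ℕ) : ℝ) + D := by linarith [hu.1]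
          exact_mod_cast h1)
  -- the sizes
  have hT1' : 1 ≤ T := by linarith
  set E : ℝ := 2 - 2 * (σ - r) + 7 * κ with hE
  have hE0 : 0 ≤ E := by rw [hE]; linarith
  have hlog : Real.log T ≤ T ^ κ := by
    refine le_trans ?_ e1
    nlinarith
  have hTκ : 1 ≤ T ^ κ := Real.one_le_rpow hT1' hκ0.le
  have hTE : 1 ≤ T ^ E := Real.one_le_rpow hT1' hE0
  have hS2 : (S.card : ℝ) ≤ (1 + C2) * (T ^ E * T ^ κ) := by
    have h1 : (D : ℝ) + 1 ≤ T ^ E * T ^ κ := by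
      have h0 : (0 : ℝ) ≤ D := by positivity
      calc (D : ℝ) + 1 ≤ T ^ κ := by linarith
        _ = 1 * T ^ κ := (one_mul _).symm
        _ ≤ T ^ E * T ^ κ := by gcongr
    have h2 : (B.card : ℝ) * (2 * D + 1) ≤ C2 * T ^ E * T ^ κ := by gcongr
    calc (S.card : ℝ) ≤ (D + 1) + B.card * (2 * D + 1) := hScard
      _ ≤ T ^ E * T ^ κ + C2 * T ^ E * T ^ κ := add_le_add h1 h2
      _ = _ := by ring
  have hlog0 : 0 ≤ Real.log T := by linarith
  have hfinal : T ^ E * T ^ κ * T ^ κ = T ^ (2 - 2 * (σ - r) + 9 * κ) := by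
    rw [← Real.rpow_add hTpos, ← Real.rpow_add hTpos]
    congr 1
    rw [hE]; ring
  have hone : 1 ≤ T ^ E * T ^ κ * T ^ κ := by
    have h1 : 1 ≤ T ^ E * T ^ κ := one_le_mul_of_one_le_of_one_le hTE hTκ
    exact one_le_mul_of_one_le_of_one_le h1 hTκ
  calc (cnt A : ℝ) ≤ C3 + (S.card : ℝ) * (C3 * Real.log T) := hcnt
    _ ≤ C3 + (1 + C2) * (T ^ E * T ^ κ) * (C3 * T ^ κ) := by gcongr
    _ = C3 * 1 + C3 * (1 + C2) * (T ^ E * T ^ κ * T ^ κ) := by ring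
    _ ≤ C3 * (T ^ E * T ^ κ * T ^ κ) + C3 * (1 + C2) * (T ^ E * T ^ κ * T ^ κ) := by gcongr
    _ = C3 * (2 + C2) * (T ^ E * T ^ κ * T ^ κ) := by ring
    _ = C3 * (2 + C2) * T ^ (2 - 2 * (σ - r) + 9 * κ) := by rw [hfinal]

/-- the trivial bound -/
theorem count_trivial {ε : ℝ} (hε : 0 < ε) :
    ∃ C : ℝ, 0 < C ∧ ∃ T₀ : ℝ, ∀ T : ℝ, T₀ ≤ T → ∀ A : Set ℂ, A ⊆ DH31.zeros (1 / 2) T →
      (cnt A : ℝ) ≤ C * T ^ (1 + ε) := by
  obtain ⟨C3, hC3, hwin⟩ := DH31.windows_to_count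
  have ev1 := DH31.ev_log 1 ε 1 hε
  obtain ⟨T3, hT3⟩ := Filter.eventually_atTop.1 (ev1.and (eventually_ge_atTop (3 : ℝ)))
  refine ⟨C3 * 3, by positivity, T3, ?_⟩
  intro T hT A hA
  obtain ⟨e1, e2⟩ := hT3 T hT
  rw [pow_one, one_mul] at e1
  have hTpos : 0 < T := by linarith
  have hcnt := hwin T e2 A hA (Finset.range (⌊T⌋₊ + 1)) (by
    intro w hw hw3
    obtain ⟨w1, w2, w3, w4⟩ := hA hw
    set n : ℕ := ⌈w.im⌉₊ - 1 with hn
    have hceil : 1 ≤ ⌈w.im⌉₊ := Nat.one_le_iff_ne_zero.2 (by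
      intro h; rw [Nat.ceil_eq_zero] at h; linarith)
    have hn1 : ((n : ℕ) : ℝ) + 1 = (⌈w.im⌉₊ : ℝ) := by
      rw [hn]
      have : ((⌈w.im⌉₊ - 1 : ℕ) : ℝ) = (⌈w.im⌉₊ : ℝ) - 1 := by
        push_cast [Nat.cast_sub hceil]; ring
      rw [this]; ring
    have h10 : (n : ℝ) < w.im := by
      have := Nat.ceil_lt_add_one (show 0 ≤ w.im by linarith)
      linarith
    have h11 : w.im ≤ n + 1 := by rw [hn1]; exact Nat.le_ceil _
    refine ⟨n, ?_, h10, h11⟩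
    rw [Finset.mem_range, Nat.lt_succ_iff]
    exact Nat.le_floor (by linarith))
  rw [Finset.card_range] at hcnt
  push_cast at hcnt
  have h1 := Nat.floor_le hTpos.le
  have hlog : 0 ≤ Real.log T := Real.log_nonneg (by linarith)
  have hTε : T ^ (1 + ε) = T * T ^ ε := by rw [Real.rpow_add hTpos, Real.rpow_one]
  have h2 : 1 ≤ T * T ^ ε := by
    have : 1 ≤ T ^ ε := Real.one_le_rpow (by linarith) hε.le
    nlinarith
  have h3 : ((⌊T⌋₊ : ℝ) + 1) * Real.log T ≤ 2 * (T * T ^ ε) := by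
    calc ((⌊T⌋₊ : ℝ) + 1) * Real.log T ≤ (2 * T) * T ^ ε := by gcongr; linarith
      _ = _ := by ring
  rw [hTε]
  nlinarith

end Pool.Agent.X284.PZ
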