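import Pool.Agent.X284.PZ.Small

/-!
A zero of zeta that is enclosed by a path with few zeros near it makes the mollifier large.
-/

set_option autoImplicit false

open Complex Metric Set Filter Topology

namespace Pool.Agent.X284.PZ

open DH31 H370 H370.Loc Pool.Agent.X284.AZ

/-- the compact set `K` together with the bounded components of its complement -/
def hull (K : Set ℂ) : Set ℂ := {z | z ∈ K ∨ Bornology.IsBounded (connectedComponentIn Kᶜ z)}

/-- the hull lies in each closed half plane that contains `K` -/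
lemma hull_dir {K : Set ℂ} {z u : ℂ} (hz : z ∈ hull K) (hu : u ≠ 0) :
    ∃ k ∈ K, (z * u).re ≤ (k * u).re := by
  by_cases hzK : z ∈ K
  · exact ⟨z, hzK, le_rfl⟩
  have hbd : Bornology.IsBounded (connectedComponentIn Kᶜ z) := hz.resolve_left hzK
  by_contra hcon
  push Not at hcon
  set S : Set ℂ := {w | (z * u).re ≤ (w * u).re} with hS
  have hlin : IsLinearMap ℝ (fun w : ℂ => (w * u).re) := by
    constructor
    · intro x y; simp only [add_mul, Complex.add_re]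
    · intro c x
      simp only [Complex.real_smul, mul_assoc, Complex.re_ofReal_mul, smul_eq_mul]
  have hconv : Convex ℝ S := convex_halfSpace_ge hlin _
  have hsub : S ⊆ connectedComponentIn Kᶜ z := by
    refine hconv.isPreconnected.subset_connectedComponentIn (by simp [hS]) ?_
    intro w hw hwK
    exact absurd (hcon w hwK) (not_lt.2 hw)
  obtain ⟨C, hC⟩ := isBounded_iff_forall_norm_le.1 (hbd.subset hsub)
  have hu0 : 0 < ‖u‖ := norm_pos_iff.2 hu
  obtain ⟨n, hn⟩ := exists_nat_gt ((C + ‖z‖) / ‖u‖)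
  rw [div_lt_iff₀ hu0] at hn
  have hmem : z + n * (starRingEnd ℂ) u ∈ S := by
    simp only [hS, mem_setOf_eq]
    have h1 : (z + n * (starRingEnd ℂ) u) * u = z * u + ((n * ‖u‖ ^ 2 : ℝ) : ℂ) := by
      have : (starRingEnd ℂ) u * u = ((‖u‖ ^ 2 : ℝ) : ℂ) := by
        rw [mul_comm, Complex.mul_conj, Complex.normSq_eq_norm_sq]
      rw [add_mul, mul_assoc, this]
      push_cast
      ring
    rw [h1, Complex.add_re, Complex.ofReal_re]
    have : 0 ≤ (n : ℝ) * ‖u‖ ^ 2 := by positivity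
    linarith
  have h2 := hC _ hmem
  have h3 : (n : ℝ) * ‖u‖ ≤ ‖z + n * (starRingEnd ℂ) u‖ + ‖z‖ := by
    calc (n : ℝ) * ‖u‖ = ‖(n : ℂ) * (starRingEnd ℂ) u‖ := by
          rw [norm_mul, Complex.norm_natCast, RCLike.norm_conj]
      _ = ‖(z + n * (starRingEnd ℂ) u) - z‖ := by congr 1; ring
      _ ≤ _ := norm_sub_le _ _
  linarith

/-- the maximum principle -/
lemma hull_max {K : Set ℂ} (hK : IsClosed K) {F : ℂ → ℂ} {c : ℝ}
    (hF : ∀ z ∈ hull K, DifferentiableAt ℂ F z) (hb : ∀ z ∈ K, ‖F z‖ ≤ c) :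
    ∀ z ∈ hull K, ‖F z‖ ≤ c := by
  intro z hz
  by_cases hzK : z ∈ K
  · exact hb z hzK
  have hbd : Bornology.IsBounded (connectedComponentIn Kᶜ z) := hz.resolve_left hzK
  set U := connectedComponentIn Kᶜ z with hU
  have hUo : IsOpen U := hK.isOpen_compl.connectedComponentIn
  have hzU : z ∈ U := mem_connectedComponentIn hzK
  have hcl : ∀ w ∈ closure U, w ∈ U ∨ w ∈ K := by
    intro w hw
    by_cases hwK : w ∈ K
    · exact Or.inr hwK
    left
    have hVo : IsOpen (connectedComponentIn Kᶜ w) := hK.isOpen_compl.connectedComponentIn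
    have hwV : w ∈ connectedComponentIn Kᶜ w := mem_connectedComponentIn hwK
    obtain ⟨v, hv1, hv2⟩ := mem_closure_iff.1 hw _ hVo hwV
    have e1 := connectedComponentIn_eq hv1
    have e2 := connectedComponentIn_eq hv2
    rw [hU, e2, ← e1]
    exact hwV
  have hUh : ∀ w ∈ U, w ∈ hull K := by
    intro w hw
    right
    rw [← connectedComponentIn_eq hw]
    exact hbd
  refine Complex.norm_le_of_forall_mem_frontier_norm_le hbd ?_ ?_ (subset_closure hzU)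
  · apply DifferentiableOn.diffContOnCl
    intro w hw
    rcases hcl w hw with h | h
    · exact (hF w (hUh w h)).differentiableWithinAt
    · exact (hF w (Or.inl h)).differentiableWithinAt
  · intro w hw
    rw [hUo.frontier_eq] at hw
    exact hb w ((hcl w hw.1).resolve_left hw.2)

/-- a zero that is enclosed by a path with few zeros near it makes the mollifier large -/
theorem enclosed_bad {r L κ : ℝ} (hr : 0 < r) (hr1 : r ≤ 1 / 28) (hL : 0 ≤ L) (hκ : 0 < κ)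
    (hκ1 : κ ≤ 1) :
    ∃ η : ℝ, 0 < η ∧ ∃ η₂ : ℝ, 0 < η₂ ∧ ∃ T0 : ℝ, ∀ T : ℝ, T0 ≤ T → ∀ σ : ℝ, 1 / 2 ≤ σ → σ ≤ 1 →
      ∀ (p : ℝ → ℂ) (ρ : ℂ), riemannZeta ρ = 0 → L + 3 ≤ ρ.im → ρ.im ≤ T → 1 ≤ (p 1).re →
      ρ ∈ hull (p '' Icc (0 : ℝ) 1) →
      (∀ x ∈ Icc (0 : ℝ) 1, σ ≤ (p x).re) →
      (∀ x ∈ Icc (0 : ℝ) 1, ∀ y ∈ Icc (0 : ℝ) 1, ‖p x - p y‖ ≤ L * |x - y|) →
      (∀ S : Finset ℂ, (∀ z ∈ S, (∃ x ∈ Icc (0 : ℝ) 1, ‖z - p x‖ ≤ 5 * r) ∧ riemannZeta z = 0) →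
        ∑ z ∈ S, (mult riemannZeta z : ℝ) ≤ η * Real.log T) →
      ∃ t : ℝ, |t - ρ.im| ≤ Real.log T + L + 1 ∧
        T ^ η₂ ≤ ‖MX ⌊T ^ κ⌋₊ (((σ - 2 * r : ℝ) : ℂ) + t * I)‖ := by
  obtain ⟨η, hη, b, hb, a', ha', T1, hsm⟩ :=
    small_on (L := 2 * L + 2) hr hr1 (by linarith) hκ hκ1
  obtain ⟨Ck, hCk, hker⟩ := kernel
  have ev1 : ∀ᶠ T : ℝ in atTop, Ck ≤ T ^ (b / 2) :=
    (tendsto_rpow_atTop (show 0 < b / 2 by positivity)).eventually_ge_atTop _
  have ev2 : ∀ᶠ T : ℝ in atTop, 1 ≤ Real.log T := Real.tendsto_log_atTop.eventually_ge_atTop _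
  obtain ⟨T3, hT3⟩ := Filter.eventually_atTop.1 ((ev1.and ev2).and (eventually_ge_atTop (1 : ℝ)))
  refine ⟨η, hη, b / 2, by positivity, max T1 T3, ?_⟩
  intro T hT σ hσ hσ1 p ρ hρ0 him hT' hp1 hhull hσp hlip hcount
  have hT1 : T1 ≤ T := (le_max_left _ _).trans hT
  obtain ⟨⟨e1, e2⟩, e3⟩ := hT3 T ((le_max_right _ _).trans hT)
  have hTpos : 0 < T := by linarith
  by_contra hcon
  push Not at hcon
  have hdiam : ∀ x ∈ Icc (0 : ℝ) 1, ∀ y ∈ Icc (0 : ℝ) 1, ‖p x - p y‖ ≤ L := by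
    intro x hx y hy
    refine (hlip x hx y hy).trans ?_
    have : |x - y| ≤ 1 := by
      rw [abs_le]; constructor <;> linarith [hx.1, hx.2, hy.1, hy.2]
    nlinarith
  have hρ1 : ρ.re < 1 := by
    by_contra hc
    push Not at hc
    exact riemannZeta_ne_zero_of_one_le_re hc hρ0
  -- the extent of the path
  have hup : ∀ z ∈ hull (p '' Icc (0 : ℝ) 1), ∃ x ∈ Icc (0 : ℝ) 1, z.im ≤ (p x).im := by
    intro z hz
    obtain ⟨_, ⟨x, hx, rfl⟩, h⟩ := hull_dir hz (u := -I) (by simp)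
    refine ⟨x, hx, ?_⟩
    simpa using h
  have hdown : ∀ z ∈ hull (p '' Icc (0 : ℝ) 1), ∃ x ∈ Icc (0 : ℝ) 1, (p x).im ≤ z.im := by
    intro z hz
    obtain ⟨_, ⟨x, hx, rfl⟩, h⟩ := hull_dir hz (u := I) (by simp)
    refine ⟨x, hx, ?_⟩
    simpa using h
  have hleft : ∀ z ∈ hull (p '' Icc (0 : ℝ) 1), ∃ x ∈ Icc (0 : ℝ) 1, (p x).re ≤ z.re := by
    intro z hz
    obtain ⟨_, ⟨x, hx, rfl⟩, h⟩ := hull_dir hz (u := -1) (by simp)
    refine ⟨x, hx, ?_⟩
    simpa using h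
  have hpim : ∀ x ∈ Icc (0 : ℝ) 1, |(p x).im - ρ.im| ≤ L := by
    intro x hx
    obtain ⟨y, hy, h1⟩ := hup ρ hhull
    obtain ⟨y', hy', h2⟩ := hdown ρ hhull
    have h3 := abs_le.1 ((Complex.abs_im_le_norm _).trans (hdiam x hx y hy))
    have h4 := abs_le.1 ((Complex.abs_im_le_norm _).trans (hdiam x hx y' hy'))
    rw [Complex.sub_im] at h3 h4
    rw [abs_le]
    constructor <;> linarith [h3.1, h3.2, h4.1, h4.2]
  have hpre : ∀ x ∈ Icc (0 : ℝ) 1, (p x).re ≤ 1 + L := by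
    intro x hx
    obtain ⟨y, hy, h1⟩ := hleft ρ hhull
    have h3 := abs_le.1 ((Complex.abs_re_le_norm _).trans (hdiam x hx y hy))
    rw [Complex.sub_re] at h3
    linarith [h3.2]
  have hp : ∀ x ∈ Icc (0 : ℝ) 1, 1 / 2 ≤ (p x).re ∧ 2 ≤ (p x).im ∧
      ‖p x‖ ≤ T + (2 * L + 2) + 3 := by
    intro x hx
    have h1 := hσp x hx
    have h2 := abs_le.1 (hpim x hx)
    have h3 := hpre x hx
    refine ⟨by linarith, by linarith [h2.1], ?_⟩
    refine (Complex.norm_le_abs_re_add_abs_im _).trans ?_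
    rw [abs_of_nonneg (by linarith), abs_of_nonneg (by linarith [h2.1])]
    linarith [h2.2]
  -- the mollifier
  have hXT : (⌊T ^ κ⌋₊ : ℝ) ≤ T := by
    calc (⌊T ^ κ⌋₊ : ℝ) ≤ T ^ κ := Nat.floor_le (by positivity)
      _ ≤ T ^ (1 : ℝ) := Real.rpow_le_rpow_of_exponent_le e3 hκ1
      _ = T := Real.rpow_one T
  have hTb : 1 ≤ T ^ (b / 2) := Real.one_le_rpow e3 (by positivity)
  have hM : ∀ z : ℂ, (∃ x ∈ Icc (0 : ℝ) 1, ‖z - p x‖ ≤ 2 * r) → ‖MX ⌊T ^ κ⌋₊ z‖ ≤ T ^ b := by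
    rintro z ⟨x, hx, hz⟩
    have h1 := abs_le.1 ((Complex.abs_re_le_norm _).trans hz)
    have h2 := abs_le.1 ((Complex.abs_im_le_norm _).trans hz)
    rw [Complex.sub_re] at h1
    rw [Complex.sub_im] at h2
    have h3 := hσp x hx
    have h4 := abs_le.1 (hpim x hx)
    have h5 := hker ⌊T ^ κ⌋₊ T (T ^ (b / 2)) (σ - 2 * r) hXT e2 hTb (by linarith) (by linarith) z
      (by linarith [h1.1]) fun t ht => ?_
    · calc ‖MX ⌊T ^ κ⌋₊ z‖ ≤ Ck * T ^ (b / 2) := h5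
        _ ≤ T ^ (b / 2) * T ^ (b / 2) := by gcongr
        _ = T ^ b := by rw [← Real.rpow_add hTpos]; congr 1; ring
    · refine (hcon t ?_).le
      have h6 := abs_le.1 ht
      rw [abs_le]
      constructor <;> linarith [h6.1, h6.2, h2.1, h2.2, h4.1, h4.2]
  have hsmall := hsm T hT1 p hp hp1 (fun x hx y hy => (hlip x hx y hy).trans (by
    have := abs_nonneg (x - y)
    nlinarith)) hcount hM
  have hcont : ContinuousOn p (Icc (0 : ℝ) 1) := by
    have hl : LipschitzOnWith ⟨L, hL⟩ p (Icc (0 : ℝ) 1) := by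
      refine LipschitzOnWith.of_dist_le_mul fun x hx y hy => ?_
      rw [dist_eq_norm, Real.dist_eq]
      exact hlip x hx y hy
    exact hl.continuousOn
  have hclosed : IsClosed (p '' Icc (0 : ℝ) 1) := (isCompact_Icc.image_of_continuousOn hcont).isClosed
  have hfin := hull_max hclosed (F := fun s => riemannZeta s * MX ⌊T ^ κ⌋₊ s - 1)
    (c := Real.exp (-(a' * Real.log T)))
    (fun z hz => by
      obtain ⟨x, hx, h⟩ := hdown z hz
      have h1 := (hp x hx).2.1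
      have h4 : AnalyticAt ℂ riemannZeta z := zeta_analyticAt (by linarith)
      exact ((h4.differentiableAt.mul (MX_differentiable _ z)).sub_const 1))
    (by rintro _ ⟨x, hx, rfl⟩; exact hsmall x hx) ρ hhull
  simp only [hρ0, zero_mul, zero_sub, norm_neg, norm_one] at hfin
  have : Real.exp (-(a' * Real.log T)) < 1 := by
    rw [Real.exp_lt_one_iff]
    have : 0 < a' * Real.log T := by positivity
    linarith
  linarith

end Pool.Agent.X284.PZ
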