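import Pool.Agent.X284.AZ.Bad

/-!
Few zeros near a path to the line `Re s = 1`, and a mollifier of moderate size near the path: then
zeta is of moderate size and the mollified zeta function is close to one at every point of the path.
-/

set_option autoImplicit false

open Complex Metric Set Filter Topology

namespace Pool.Agent.X284.PZ

open DH31 H370 H370.Loc Pool.Agent.X284.AZ

/-- the properties of the chain of discs along a path -/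
lemma chain_props {r L σ : ℝ} (hr : 0 < r) (hL : 0 ≤ L) {N : ℕ} (hN : N = ⌈4 * (L + r) / r⌉₊ + 1)
    {p : ℝ → ℂ} (hp1 : 1 ≤ (p 1).re) (hσp : ∀ x ∈ Icc (0 : ℝ) 1, σ ≤ (p x).re)
    (hlip : ∀ x ∈ Icc (0 : ℝ) 1, ∀ y ∈ Icc (0 : ℝ) 1, ‖p x - p y‖ ≤ L * |x - y|) :
    (∀ j ≤ N, 1 - (j : ℝ) / N ∈ Icc (0 : ℝ) 1) ∧
    (∀ j ≤ N, ‖cc p r N j - p (1 - (j : ℝ) / N)‖ ≤ r) ∧
    (∀ j < N, ‖cc p r N (j + 1) - cc p r N j‖ ≤ r / 4) ∧
    1 + r ≤ (cc p r N 0).re ∧ cc p r N N = p 0 := by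
  have hN1 : (1 : ℝ) ≤ N := by
    rw [hN]; push_cast; linarith [Nat.cast_nonneg (α := ℝ) ⌈4 * (L + r) / r⌉₊]
  have hNpos : (0 : ℝ) < N := by linarith
  have hN4 : (L + r) / N ≤ r / 4 := by
    have h1 : 4 * (L + r) / r ≤ N := by
      rw [hN]; push_cast
      linarith [Nat.le_ceil (4 * (L + r) / r)]
    rw [div_le_iff₀ hr] at h1
    rw [div_le_iff₀ hNpos]
    linarith
  have hxj : ∀ j ≤ N, 1 - (j : ℝ) / N ∈ Icc (0 : ℝ) 1 := by
    intro j hj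
    have h1 : (j : ℝ) / N ≤ 1 := by
      rw [div_le_one hNpos]; exact_mod_cast hj
    have h2 : 0 ≤ (j : ℝ) / N := by positivity
    exact ⟨by linarith, by linarith⟩
  refine ⟨hxj, ?_, ?_, ?_, ?_⟩
  · intro j hj
    have h1 := hxj j hj
    simp only [cc, add_sub_cancel_left]
    rw [Complex.norm_real, Real.norm_of_nonneg (mul_nonneg h1.1 hr.le)]
    nlinarith [h1.2]
  · intro j hj
    have h1 := hxj j (by omega)
    have h2 := hxj (j + 1) (by omega)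
    have h3 := hlip _ h2 _ h1
    have h4 : (1 - ((j + 1 : ℕ) : ℝ) / N) - (1 - (j : ℝ) / N) = -(1 / N) := by
      push_cast; ring
    rw [h4, abs_neg, abs_of_pos (by positivity)] at h3
    have h5 : cc p r N (j + 1) - cc p r N j =
        (p (1 - ((j + 1 : ℕ) : ℝ) / N) - p (1 - (j : ℝ) / N)) + ((-(1 / N) * r : ℝ) : ℂ) := by
      simp only [cc]
      rw [← h4]
      push_cast
      ring
    rw [h5]
    refine (norm_add_le _ _).trans ?_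
    rw [Complex.norm_real, norm_mul, norm_neg, Real.norm_of_nonneg (by positivity : (0:ℝ) ≤ 1 / N),
      Real.norm_of_nonneg hr.le]
    calc ‖p (1 - ((j + 1 : ℕ) : ℝ) / N) - p (1 - (j : ℝ) / N)‖ + 1 / N * r
        ≤ L * (1 / N) + 1 / N * r := by gcongr
      _ = (L + r) / N := by ring
      _ ≤ r / 4 := hN4
  · simp only [cc, Nat.cast_zero, zero_div, sub_zero, one_mul, Complex.add_re,
      Complex.ofReal_re]
    linarith
  · simp only [cc]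
    rw [div_self hNpos.ne']
    simp

/-- zeta is of moderate size at the beginning of a path with few zeros near it -/
theorem zeta_at {r L a : ℝ} (hr : 0 < r) (hr1 : r ≤ 1 / 28) (hL : 0 ≤ L) (ha : 0 < a) :
    ∃ η : ℝ, 0 < η ∧ ∃ T0 : ℝ, ∀ T : ℝ, T0 ≤ T → ∀ (p : ℝ → ℂ),
      (∀ x ∈ Icc (0 : ℝ) 1, 1 / 2 ≤ (p x).re ∧ 2 ≤ (p x).im ∧ ‖p x‖ ≤ T + L + 3) →
      1 ≤ (p 1).re →
      (∀ x ∈ Icc (0 : ℝ) 1, ∀ y ∈ Icc (0 : ℝ) 1, ‖p x - p y‖ ≤ L * |x - y|) →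
      (∀ S : Finset ℂ, (∀ z ∈ S, (∃ x ∈ Icc (0 : ℝ) 1, ‖z - p x‖ ≤ 5 * r) ∧ riemannZeta z = 0) →
        ∑ z ∈ S, (mult riemannZeta z : ℝ) ≤ η * Real.log T) →
      ‖riemannZeta (p 0)‖ ≤ T ^ a := by
  set N : ℕ := ⌈4 * (L + r) / r⌉₊ + 1 with hN
  obtain ⟨η, hη, T0, hback⟩ := backPath hr hr1 hL ha N
  refine ⟨η, hη, T0, ?_⟩
  intro T hT p hp hp1 hlip hcount
  obtain ⟨hxj, hcp, hstep, hc0, hcN⟩ := chain_props hr hL hN hp1 (fun x hx => (hp x hx).1) hlip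
  have hdiam : ∀ x ∈ Icc (0 : ℝ) 1, ∀ y ∈ Icc (0 : ℝ) 1, ‖p x - p y‖ ≤ L := by
    intro x hx y hy
    refine (hlip x hx y hy).trans ?_
    have : |x - y| ≤ 1 := by
      rw [abs_le]; constructor <;> linarith [hx.1, hx.2, hy.1, hy.2]
    nlinarith
  have h := hback T hT p (cc p r N) hp hdiam (fun j hj => ⟨_, hxj j hj, hcp j hj⟩)
    (fun j hj => (hstep j hj).trans (by linarith)) hc0 hcount N le_rfl (p 0)
  rw [hcN] at h
  exact h (mem_closedBall_self hr.le)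

/-- the mollified zeta function is close to one at the beginning of a path with few zeros near it -/
theorem small_at {r L κ : ℝ} (hr : 0 < r) (hr1 : r ≤ 1 / 28) (hL : 0 ≤ L) (hκ : 0 < κ)
    (hκ1 : κ ≤ 1) :
    ∃ η : ℝ, 0 < η ∧ ∃ b : ℝ, 0 < b ∧ ∃ a' : ℝ, 0 < a' ∧ ∃ T0 : ℝ, ∀ T : ℝ, T0 ≤ T →
      ∀ (p : ℝ → ℂ),
      (∀ x ∈ Icc (0 : ℝ) 1, 1 / 2 ≤ (p x).re ∧ 2 ≤ (p x).im ∧ ‖p x‖ ≤ T + L + 3) →
      1 ≤ (p 1).re →
      (∀ x ∈ Icc (0 : ℝ) 1, ∀ y ∈ Icc (0 : ℝ) 1, ‖p x - p y‖ ≤ L * |x - y|) →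
      (∀ S : Finset ℂ, (∀ z ∈ S, (∃ x ∈ Icc (0 : ℝ) 1, ‖z - p x‖ ≤ 5 * r) ∧ riemannZeta z = 0) →
        ∑ z ∈ S, (mult riemannZeta z : ℝ) ≤ η * Real.log T) →
      (∀ z : ℂ, (∃ x ∈ Icc (0 : ℝ) 1, ‖z - p x‖ ≤ 2 * r) → ‖MX ⌊T ^ κ⌋₊ z‖ ≤ T ^ b) →
      ‖riemannZeta (p 0) * MX ⌊T ^ κ⌋₊ (p 0) - 1‖ ≤ Real.exp (-(a' * Real.log T)) := by
  set N : ℕ := ⌈4 * (L + r) / r⌉₊ + 1 with hN
  obtain ⟨b, hb, a', ha', Λ0, hchain⟩ := chainSmall N (κ * r / 8) (by positivity)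
  obtain ⟨η, hη, T1, hback⟩ := backPath hr hr1 hL (show 0 < b / 4 by positivity) N
  obtain ⟨T2, hone⟩ := near_one hr hκ
  have ev1 : ∀ᶠ T : ℝ in atTop, 2 ≤ T ^ (b / 4) :=
    (tendsto_rpow_atTop (show 0 < b / 4 by positivity)).eventually_ge_atTop _
  have ev2 : ∀ᶠ T : ℝ in atTop, max Λ0 1 ≤ Real.log T := Real.tendsto_log_atTop.eventually_ge_atTop _
  obtain ⟨T3, hT3⟩ := Filter.eventually_atTop.1 ((ev1.and ev2).and (eventually_ge_atTop (1 : ℝ)))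
  refine ⟨η, hη, b / 4, by positivity, a', ha', max (max T1 T2) T3, ?_⟩
  intro T hT p hp hp1 hlip hcount hM
  have hT1 : T1 ≤ T := (le_max_left _ _).trans ((le_max_left _ _).trans hT)
  have hT2 : T2 ≤ T := (le_max_right _ _).trans ((le_max_left _ _).trans hT)
  obtain ⟨⟨e1, e2⟩, e3⟩ := hT3 T ((le_max_right _ _).trans hT)
  have hTpos : 0 < T := by linarith
  have hΛ0 : Λ0 ≤ Real.log T := (le_max_left _ _).trans e2
  obtain ⟨hxj, hcp, hstep, hc0, hcN⟩ := chain_props hr hL hN hp1 (fun x hx => (hp x hx).1) hlip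
  have hdiam : ∀ x ∈ Icc (0 : ℝ) 1, ∀ y ∈ Icc (0 : ℝ) 1, ‖p x - p y‖ ≤ L := by
    intro x hx y hy
    refine (hlip x hx y hy).trans ?_
    have : |x - y| ≤ 1 := by
      rw [abs_le]; constructor <;> linarith [hx.1, hx.2, hy.1, hy.2]
    nlinarith
  set c : ℕ → ℂ := cc p r N with hc
  have hζ := hback T hT1 p c hp hdiam (fun j hj => ⟨_, hxj j hj, hcp j hj⟩)
    (fun j hj => (hstep j hj).trans (by linarith)) hc0 hcount
  have hnear : ∀ j ≤ N, ∀ z ∈ ball (c j) r, ‖z - p (1 - (j : ℝ) / N)‖ ≤ 2 * r := by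
    intro j hj z hz
    rw [mem_ball, dist_eq_norm] at hz
    calc ‖z - p (1 - (j : ℝ) / N)‖ = ‖(z - c j) + (c j - p (1 - (j : ℝ) / N))‖ := by
          congr 1; ring
      _ ≤ ‖z - c j‖ + ‖c j - p (1 - (j : ℝ) / N)‖ := norm_add_le _ _
      _ ≤ 2 * r := by linarith [hcp j hj]
  set X := ⌊T ^ κ⌋₊ with hX
  set F : ℂ → ℂ := fun s => riemannZeta s * MX X s - 1 with hF
  have hfin := hchain (Real.log T) hΛ0 r F c hr
    (fun j hj z hz => by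
      have h1 := abs_le.1 ((Complex.abs_im_le_norm _).trans (hnear j hj z hz))
      rw [Complex.sub_im] at h1
      have h2 := (hp _ (hxj j hj)).2.1
      have h4 : AnalyticAt ℂ riemannZeta z := zeta_analyticAt (by linarith [h1.1])
      exact ((h4.differentiableAt.mul (MX_differentiable X z)).sub_const 1).differentiableWithinAt)
    (fun j hj z hz => by
      have h1 := hζ j hj z (ball_subset_closedBall hz)
      have h2 := hM z ⟨_, hxj j hj, hnear j hj z hz⟩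
      simp only [hF]
      have hTb : 1 ≤ T ^ (b / 4) := by linarith
      calc ‖riemannZeta z * MX X z - 1‖ ≤ ‖riemannZeta z * MX X z‖ + ‖(1 : ℂ)‖ := norm_sub_le _ _
        _ = ‖riemannZeta z‖ * ‖MX X z‖ + 1 := by rw [norm_mul, norm_one]
        _ ≤ T ^ (b / 4) * T ^ (b / 4) + 1 := by gcongr
        _ ≤ T ^ (b / 4) * T ^ (b / 4) + T ^ (b / 4) * T ^ (b / 4) := by
            have : 1 ≤ T ^ (b / 4) * T ^ (b / 4) := by nlinarith
            linarith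
        _ = 2 * (T ^ (b / 4) * T ^ (b / 4)) := by ring
        _ ≤ T ^ (b / 4) * (T ^ (b / 4) * T ^ (b / 4)) := by gcongr
        _ = T ^ (3 * b / 4) := by
            rw [← Real.rpow_add hTpos, ← Real.rpow_add hTpos]; congr 1; ring
        _ ≤ T ^ b := Real.rpow_le_rpow_of_exponent_le e3 (by linarith)
        _ = Real.exp (b * Real.log T) := by rw [Real.rpow_def_of_pos hTpos, mul_comm])
    hstep
    (fun z hz => by
      refine hone T hT2 z ?_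
      rw [mem_closedBall, dist_eq_norm] at hz
      have h1 := abs_le.1 ((Complex.abs_re_le_norm (z - c 0)).trans hz)
      rw [Complex.sub_re] at h1
      linarith [h1.1])
    (p 0) (by rw [hcN]; exact mem_closedBall_self (by positivity))
  simpa only [hF] using hfin

/-- the same at every point of the path -/
theorem small_on {r L κ : ℝ} (hr : 0 < r) (hr1 : r ≤ 1 / 28) (hL : 0 ≤ L) (hκ : 0 < κ)
    (hκ1 : κ ≤ 1) :
    ∃ η : ℝ, 0 < η ∧ ∃ b : ℝ, 0 < b ∧ ∃ a' : ℝ, 0 < a' ∧ ∃ T0 : ℝ, ∀ T : ℝ, T0 ≤ T →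
      ∀ (p : ℝ → ℂ),
      (∀ x ∈ Icc (0 : ℝ) 1, 1 / 2 ≤ (p x).re ∧ 2 ≤ (p x).im ∧ ‖p x‖ ≤ T + L + 3) →
      1 ≤ (p 1).re →
      (∀ x ∈ Icc (0 : ℝ) 1, ∀ y ∈ Icc (0 : ℝ) 1, ‖p x - p y‖ ≤ L * |x - y|) →
      (∀ S : Finset ℂ, (∀ z ∈ S, (∃ x ∈ Icc (0 : ℝ) 1, ‖z - p x‖ ≤ 5 * r) ∧ riemannZeta z = 0) →
        ∑ z ∈ S, (mult riemannZeta z : ℝ) ≤ η * Real.log T) →
      (∀ z : ℂ, (∃ x ∈ Icc (0 : ℝ) 1, ‖z - p x‖ ≤ 2 * r) → ‖MX ⌊T ^ κ⌋₊ z‖ ≤ T ^ b) →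
      ∀ x ∈ Icc (0 : ℝ) 1,
        ‖riemannZeta (p x) * MX ⌊T ^ κ⌋₊ (p x) - 1‖ ≤ Real.exp (-(a' * Real.log T)) := by
  obtain ⟨η, hη, b, hb, a', ha', T0, h⟩ := small_at hr hr1 hL hκ hκ1
  refine ⟨η, hη, b, hb, a', ha', T0, ?_⟩
  intro T hT p hp hp1 hlip hcount hM x hx
  set φ : ℝ → ℝ := fun y => x + y * (1 - x) with hφ
  have hφI : ∀ y ∈ Icc (0 : ℝ) 1, φ y ∈ Icc (0 : ℝ) 1 := by
    intro y hy
    simp only [hφ]
    constructor
    · have := mul_nonneg hy.1 (show 0 ≤ 1 - x by linarith [hx.2])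
      linarith [hx.1]
    · have := mul_le_mul_of_nonneg_right hy.2 (show 0 ≤ 1 - x by linarith [hx.2])
      linarith
  have key := h T hT (fun y => p (φ y)) (fun y hy => hp _ (hφI y hy))
    (by simp only [hφ]; rw [show x + 1 * (1 - x) = 1 by ring]; exact hp1)
    (fun y hy z hz => by
      refine (hlip _ (hφI y hy) _ (hφI z hz)).trans ?_
      have e : φ y - φ z = (y - z) * (1 - x) := by simp only [hφ]; ring
      rw [e, abs_mul, abs_of_nonneg (show 0 ≤ 1 - x by linarith [hx.2])]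
      have h1 : |y - z| * (1 - x) ≤ |y - z| * 1 := by
        gcongr
        linarith [hx.1]
      rw [mul_one] at h1
      gcongr)
    (fun S hS => hcount S fun z hz => by
      obtain ⟨⟨y, hy, h1⟩, h2⟩ := hS z hz
      exact ⟨⟨φ y, hφI y hy, h1⟩, h2⟩)
    (fun z hz => by
      obtain ⟨y, hy, h1⟩ := hz
      exact hM z ⟨φ y, hφI y hy, h1⟩)
  have e0 : φ 0 = x := by simp only [hφ]; ring
  simpa only [e0] using key

end Pool.Agent.X284.PZ
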