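import Mathlib

/-!
A function that is small in a wedge of opening larger than `π` is small at the apex.
-/

set_option autoImplicit false

open Complex Metric Set Filter Topology

namespace Pool.Agent.X284.PZ

/-- the maximum principle in a rectangle -/
lemma rect_max {x0 x1 y0 y1 B : ℝ} {g : ℂ → ℂ} (hx : x0 < x1) (hy : y0 < y1)
    (hg : ∀ z : ℂ, z.re ∈ Icc x0 x1 → z.im ∈ Icc y0 y1 → DifferentiableAt ℂ g z)
    (hb : ∀ z : ℂ, z.re ∈ Icc x0 x1 → z.im ∈ Icc y0 y1 →
      (z.re = x0 ∨ z.re = x1 ∨ z.im = y0 ∨ z.im = y1) → ‖g z‖ ≤ B) :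
    ∀ z : ℂ, z.re ∈ Icc x0 x1 → z.im ∈ Icc y0 y1 → ‖g z‖ ≤ B := by
  intro z hz1 hz2
  set U : Set ℂ := Ioo x0 x1 ×ℂ Ioo y0 y1 with hU
  have hcl : closure U = Icc x0 x1 ×ℂ Icc y0 y1 := by
    rw [hU, Complex.closure_reProdIm, closure_Ioo hx.ne, closure_Ioo hy.ne]
  have hopen : IsOpen U := isOpen_Ioo.reProdIm isOpen_Ioo
  have hbd : Bornology.IsBounded U := (Metric.isBounded_Ioo _ _).reProdIm (Metric.isBounded_Ioo _ _)
  refine Complex.norm_le_of_forall_mem_frontier_norm_le hbd ?_ ?_ (by rw [hcl]; exact ⟨hz1, hz2⟩)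
  · apply DifferentiableOn.diffContOnCl
    intro w hw
    rw [hcl] at hw
    exact (hg w hw.1 hw.2).differentiableWithinAt
  · intro w hw
    rw [hopen.frontier_eq, hcl] at hw
    obtain ⟨⟨h1, h2⟩, h3⟩ := hw
    refine hb w h1 h2 ?_
    by_contra hcon
    push Not at hcon
    obtain ⟨c1, c2, c3, c4⟩ := hcon
    exact h3 ⟨⟨lt_of_le_of_ne h1.1 (Ne.symm c1), lt_of_le_of_ne h1.2 c2⟩,
      ⟨lt_of_le_of_ne h2.1 (Ne.symm c3), lt_of_le_of_ne h2.2 c4⟩⟩

/-- the bound outside the wedge -/
lemma outside {α x0 x1 c b Λ : ℝ} {Z : ℂ → ℂ} (hα : Real.pi / 2 < α) (hα' : α < Real.pi)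
    (hc : 0 < c) (hcα : Real.cos α ≤ -c) (hx : x0 < x1) (hΛ : 0 ≤ Λ) (hb : 0 ≤ b)
    (hd : ∀ z : ℂ, z.re ∈ Icc x0 x1 → DifferentiableAt ℂ Z (exp z))
    (h1 : ∀ z : ℂ, z.re ∈ Icc x0 x1 → ‖Z (exp z)‖ ≤ Real.exp (2 * Λ))
    (h3 : ∀ z : ℂ, z.re ∈ Icc x0 x1 → |z.im| ≤ α → ‖Z (exp z)‖ ≤ Real.exp (b * Λ)) :
    ∀ z : ℂ, z.re ∈ Icc x0 x1 → z.im ∈ Icc α (2 * Real.pi - α) →
      ‖Z (exp z)‖ ≤ Real.exp (Λ * (b + 2 / c * (Real.exp (z.re - x1) + Real.exp (x0 - z.re)))) := by
  set A : ℝ → ℝ := fun x => 2 * Λ / c * (Real.exp (x - x1) + Real.exp (x0 - x)) with hA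
  have hA0 : ∀ x, 0 ≤ A x := fun x => by simp only [hA]; positivity
  set K : ℝ := 2 * Λ / c * Real.exp (-x1) with hK
  set K' : ℝ := 2 * Λ / c * Real.exp x0 with hK'
  set aux : ℂ → ℂ := fun z => exp ((K : ℂ) * exp z + (K' : ℂ) * exp (-z)) with haux
  have hnorm : ∀ z : ℂ, ‖aux z‖ = Real.exp (Real.cos z.im * A z.re) := by
    intro z
    simp only [haux]
    rw [Complex.norm_exp]
    congr 1
    rw [Complex.add_re, Complex.re_ofReal_mul, Complex.re_ofReal_mul, Complex.exp_re,
      Complex.exp_re, Complex.neg_re, Complex.neg_im, Real.cos_neg]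
    simp only [hA, hK, hK']
    rw [show z.re - x1 = -x1 + z.re by ring, Real.exp_add, show x0 - z.re = x0 + -z.re by ring,
      Real.exp_add]
    ring
  have hcos : ∀ y : ℝ, y ∈ Icc α (2 * Real.pi - α) → Real.cos y ≤ -c := by
    intro y hy
    rcases le_total y Real.pi with h | h
    · refine le_trans ?_ hcα
      exact Real.cos_le_cos_of_nonneg_of_le_pi (by linarith [Real.pi_pos]) h hy.1
    · refine le_trans ?_ hcα
      rw [← Real.cos_two_pi_sub y]
      exact Real.cos_le_cos_of_nonneg_of_le_pi (by linarith [Real.pi_pos]) (by linarith) (by linarith [hy.2])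
  have hmain : ∀ z : ℂ, z.re ∈ Icc x0 x1 → z.im ∈ Icc α (2 * Real.pi - α) →
      ‖Z (exp z) * aux z‖ ≤ Real.exp (b * Λ) := by
    refine rect_max (g := fun z => Z (exp z) * aux z) hx (by linarith) ?_ ?_
    · intro z hz1 _
      refine DifferentiableAt.mul ?_ ?_
      · exact (hd z hz1).comp z Complex.differentiableAt_exp
      · simp only [haux]
        fun_prop
    · intro z hz1 hz2 hz
      have hcz := hcos z.im hz2
      have hle1 : ‖aux z‖ ≤ 1 := by
        rw [hnorm, Real.exp_le_one_iff]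
        have := hA0 z.re
        nlinarith
      have hbig : (1 : ℝ) ≤ Real.exp (z.re - x1) + Real.exp (x0 - z.re) →
          ‖Z (exp z) * aux z‖ ≤ Real.exp (b * Λ) := by
        intro hE
        have hAge : 2 * Λ / c ≤ A z.re := by
          simp only [hA]
          have : 0 ≤ 2 * Λ / c := by positivity
          nlinarith
        have h5 : ‖aux z‖ ≤ Real.exp (-(2 * Λ)) := by
          rw [hnorm]
          apply Real.exp_le_exp.2
          have h6 : Real.cos z.im * A z.re ≤ -c * A z.re :=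
            mul_le_mul_of_nonneg_right hcz (hA0 _)
          have h7 : c * (2 * Λ / c) ≤ c * A z.re := mul_le_mul_of_nonneg_left hAge hc.le
          have h8 : c * (2 * Λ / c) = 2 * Λ := by field_simp
          linarith
        rw [norm_mul]
        calc ‖Z (exp z)‖ * ‖aux z‖ ≤ Real.exp (2 * Λ) * Real.exp (-(2 * Λ)) := by
              gcongr
              exact h1 z hz1
          _ = 1 := by rw [← Real.exp_add]; simp
          _ ≤ Real.exp (b * Λ) := Real.one_le_exp (by positivity)
      rcases hz with h | h | h | h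
      · apply hbig
        rw [h, sub_self, Real.exp_zero]
        linarith [Real.exp_pos (x0 - x1)]
      · apply hbig
        rw [h, sub_self, Real.exp_zero]
        linarith [Real.exp_pos (x0 - x1)]
      · rw [norm_mul]
        calc ‖Z (exp z)‖ * ‖aux z‖ ≤ Real.exp (b * Λ) * 1 := by
              gcongr
              refine h3 z hz1 ?_
              rw [h, abs_of_pos (by linarith [Real.pi_pos])]
          _ = _ := mul_one _
      · rw [norm_mul]
        have hz' : exp z = exp (z - 2 * Real.pi * I) := by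
          rw [Complex.exp_sub, Complex.exp_two_pi_mul_I, div_one]
        calc ‖Z (exp z)‖ * ‖aux z‖ ≤ Real.exp (b * Λ) * 1 := by
              gcongr
              rw [hz']
              refine h3 _ ?_ ?_
              · have : (z - 2 * Real.pi * I).re = z.re := by simp
                rw [this]; exact hz1
              · have : (z - 2 * Real.pi * I).im = z.im - 2 * Real.pi := by simp
                rw [this, h, abs_le]
                constructor <;> linarith [Real.pi_pos]
          _ = _ := mul_one _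
  intro z hz1 hz2
  have h5 := hmain z hz1 hz2
  rw [norm_mul, hnorm] at h5
  have h6 : ‖Z (exp z)‖ ≤ Real.exp (b * Λ) * Real.exp (-(Real.cos z.im * A z.re)) := by
    rw [Real.exp_neg, ← div_eq_mul_inv, le_div_iff₀ (Real.exp_pos _)]
    exact h5
  refine h6.trans ?_
  rw [← Real.exp_add]
  apply Real.exp_le_exp.2
  have h7 : -(Real.cos z.im * A z.re) ≤ A z.re := by
    have := Real.neg_one_le_cos z.im
    have := hA0 z.re
    nlinarith
  have h8 : A z.re = Λ * (2 / c * (Real.exp (z.re - x1) + Real.exp (x0 - z.re))) := by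
    simp only [hA]; ring
  nlinarith

/-- the bound in the wedge -/
lemma inside {α x0 x1 c2 b Λ : ℝ} {F : ℂ → ℂ} (hα : Real.pi / 2 < α) 
    (hc2 : 0 < c2) (hx : x0 < x1) (hΛ : 0 ≤ Λ) (hb : 0 ≤ b)
    (hd : ∀ z : ℂ, z.re ∈ Icc x0 x1 → DifferentiableAt ℂ F (exp z))
    (h3 : ∀ z : ℂ, z.re ∈ Icc x0 x1 → |z.im| ≤ α → ‖F (exp z)‖ ≤ Real.exp (b * Λ))
    (h4 : ∀ z : ℂ, z.re = x1 → |z.im| ≤ α → ‖F (exp z)‖ ≤ Real.exp (-(c2 * Λ))) :
    ∀ z : ℂ, z.re ∈ Icc x0 x1 → |z.im| ≤ Real.pi / 2 →
      ‖F (exp z)‖ ≤ Real.exp (Λ * (b + c2 * Real.exp (Real.pi / (2 * α) * (x0 - x1)) -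
        c2 * Real.cos (Real.pi / (2 * α) * (Real.pi / 2)) *
          Real.exp (Real.pi / (2 * α) * (z.re - x1)))) := by
  have hpi := Real.pi_pos
  have hα0 : 0 < α := by linarith
  set p : ℝ := Real.pi / (2 * α) with hp
  have hp0 : 0 < p := by positivity
  have hpα : p * α = Real.pi / 2 := by rw [hp]; field_simp
  have hp1 : p < 1 := by rw [hp, div_lt_one (by positivity)]; linarith
  set aux : ℂ → ℂ := fun z => exp (((c2 * Λ : ℝ) : ℂ) * exp ((p : ℂ) * (z - x1))) with haux
  have hnorm : ∀ z : ℂ, ‖aux z‖ =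
      Real.exp (c2 * Λ * (Real.exp (p * (z.re - x1)) * Real.cos (p * z.im))) := by
    intro z
    simp only [haux]
    rw [Complex.norm_exp]
    congr 1
    rw [Complex.re_ofReal_mul, Complex.exp_re, Complex.re_ofReal_mul, Complex.im_ofReal_mul,
      Complex.sub_re, Complex.sub_im, Complex.ofReal_re, Complex.ofReal_im, sub_zero]
  have hmain : ∀ z : ℂ, z.re ∈ Icc x0 x1 → z.im ∈ Icc (-α) α →
      ‖F (exp z) * aux z‖ ≤ Real.exp (Λ * (b + c2 * Real.exp (p * (x0 - x1)))) := by
    refine rect_max (g := fun z => F (exp z) * aux z) hx (by linarith) ?_ ?_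
    · intro z hz1 _
      refine DifferentiableAt.mul ?_ ?_
      · exact (hd z hz1).comp z Complex.differentiableAt_exp
      · simp only [haux]
        fun_prop
    · intro z hz1 hz2 hz
      have hz2' : |z.im| ≤ α := abs_le.2 hz2
      have hE : 0 < Real.exp (p * (x0 - x1)) := Real.exp_pos _
      rw [norm_mul, hnorm]
      rcases hz with h | h | h | h
      · have h5 : Real.exp (c2 * Λ * (Real.exp (p * (z.re - x1)) * Real.cos (p * z.im))) ≤
            Real.exp (c2 * Λ * Real.exp (p * (x0 - x1))) := by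
          apply Real.exp_le_exp.2
          rw [h]
          have h6 := Real.cos_le_one (p * z.im)
          have h7 : Real.exp (p * (x0 - x1)) * Real.cos (p * z.im) ≤ Real.exp (p * (x0 - x1)) := by
            nlinarith
          gcongr
        calc _ ≤ Real.exp (b * Λ) * Real.exp (c2 * Λ * Real.exp (p * (x0 - x1))) := by
              gcongr
              exact h3 z hz1 hz2'
          _ = _ := by rw [← Real.exp_add]; congr 1; ring
      · have h5 : Real.exp (c2 * Λ * (Real.exp (p * (z.re - x1)) * Real.cos (p * z.im))) ≤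
            Real.exp (c2 * Λ) := by
          apply Real.exp_le_exp.2
          rw [h, sub_self, mul_zero, Real.exp_zero, one_mul]
          have h6 := Real.cos_le_one (p * z.im)
          have : 0 ≤ c2 * Λ := by positivity
          nlinarith
        calc _ ≤ Real.exp (-(c2 * Λ)) * Real.exp (c2 * Λ) := by
              gcongr
              exact h4 z h hz2'
          _ = 1 := by rw [← Real.exp_add]; simp
          _ ≤ _ := Real.one_le_exp (by positivity)
      · have h5 : Real.cos (p * z.im) = 0 := by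
          rw [h, mul_neg, Real.cos_neg, hpα, Real.cos_pi_div_two]
        rw [h5, mul_zero, mul_zero, Real.exp_zero, mul_one]
        refine (h3 z hz1 hz2').trans (Real.exp_le_exp.2 ?_)
        have : 0 ≤ Λ * (c2 * Real.exp (p * (x0 - x1))) := by positivity
        linarith
      · have h5 : Real.cos (p * z.im) = 0 := by
          rw [h, hpα, Real.cos_pi_div_two]
        rw [h5, mul_zero, mul_zero, Real.exp_zero, mul_one]
        refine (h3 z hz1 hz2').trans (Real.exp_le_exp.2 ?_)
        have : 0 ≤ Λ * (c2 * Real.exp (p * (x0 - x1))) := by positivity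
        linarith
  intro z hz1 hz2
  have hz2' := abs_le.1 hz2
  have h5 := hmain z hz1 ⟨by linarith [hz2'.1], by linarith [hz2'.2]⟩
  rw [norm_mul, hnorm] at h5
  have h6 : ‖F (exp z)‖ ≤ Real.exp (Λ * (b + c2 * Real.exp (p * (x0 - x1)))) *
      Real.exp (-(c2 * Λ * (Real.exp (p * (z.re - x1)) * Real.cos (p * z.im)))) := by
    rw [Real.exp_neg, ← div_eq_mul_inv, le_div_iff₀ (Real.exp_pos _)]
    exact h5
  refine h6.trans ?_
  rw [← Real.exp_add]
  apply Real.exp_le_exp.2
  have h7 : Real.cos (p * (Real.pi / 2)) ≤ Real.cos (p * z.im) := by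
    rw [← Real.cos_abs (p * z.im)]
    refine Real.cos_le_cos_of_nonneg_of_le_pi (abs_nonneg _) ?_ ?_
    · nlinarith
    · rw [abs_mul, abs_of_pos hp0]
      gcongr
  have h8 : c2 * Λ * (Real.exp (p * (z.re - x1)) * Real.cos (p * (Real.pi / 2))) ≤
      c2 * Λ * (Real.exp (p * (z.re - x1)) * Real.cos (p * z.im)) := by gcongr
  nlinarith

end Pool.Agent.X284.PZ
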